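import Pool.Agent.NOD.S4

/-!
Piece HFA: the factors of a form are forms.
-/

set_option autoImplicit false

namespace Pool.Agent.NOD.S4

open MvPolynomial Module

/-- factors of homogeneous polynomials are homogeneous (following `Chud.PD1`) -/
theorem hfa_homog_of_dvd {σ k : Type*} [Field k] [Finite σ] {F G : MvPolynomial σ k} {n : ℕ}
    (hF : F.IsHomogeneous n) (hF0 : F ≠ 0) (h : G ∣ F) : G.IsHomogeneous G.totalDegree := by
  obtain ⟨K, rfl⟩ := h
  have hG0 : G ≠ 0 := left_ne_zero_of_mul hF0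
  have hK0 : K ≠ 0 := right_ne_zero_of_mul hF0
  have hle : ∀ P : MvPolynomial σ k, P ≠ 0 → (P : MvPowerSeries σ k).order ≤ P.totalDegree := by
    intro P hP
    obtain ⟨d, hd⟩ := MvPolynomial.ne_zero_iff.1 hP
    have h1 : (P : MvPowerSeries σ k).order ≤ (d.degree : ℕ∞) :=
      MvPowerSeries.order_le (by simpa using hd)
    refine h1.trans ?_
    have h2 : d.degree ≤ P.totalDegree := by
      have := MvPolynomial.le_totalDegree (p := P) (s := d) (MvPolynomial.mem_support_iff.2 hd)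
      simpa [Finsupp.degree_apply, Finsupp.sum] using this
    exact_mod_cast h2
  have hmul : ((G * K : MvPolynomial σ k) : MvPowerSeries σ k).order =
      (G : MvPowerSeries σ k).order + (K : MvPowerSeries σ k).order := by
    rw [MvPolynomial.coe_mul, MvPowerSeries.order_mul]
  have hFo : (n : ℕ∞) ≤ ((G * K : MvPolynomial σ k) : MvPowerSeries σ k).order := by
    apply MvPowerSeries.nat_le_order
    intro d hd
    rw [MvPolynomial.coeff_coe]
    by_contra hne
    have := hF hne
    have h' : d.degree = n := by rw [← this, Finsupp.degree_eq_weight_one]; rfl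
    omega
  have hT : (G * K).totalDegree = n := hF.totalDegree hF0
  rw [MvPolynomial.totalDegree_mul_of_isDomain hG0 hK0] at hT
  have hGo := hle G hG0
  have hKo := hle K hK0
  rw [hmul] at hFo
  intro d hd
  have h1 : (G : MvPowerSeries σ k).order ≤ (d.degree : ℕ∞) :=
      MvPowerSeries.order_le (by simpa using hd)
  have h2 : d.degree ≤ G.totalDegree := by
      have := MvPolynomial.le_totalDegree (p := G) (s := d) (MvPolynomial.mem_support_iff.2 hd)
      simpa [Finsupp.degree_apply, Finsupp.sum] using this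
  have h3 : (n : ℕ∞) ≤ (d.degree : ℕ∞) + (K.totalDegree : ℕ∞) := hFo.trans (add_le_add h1 hKo)
  have h4 : n ≤ d.degree + K.totalDegree := by exact_mod_cast h3
  have h5 : d.degree = G.totalDegree := by omega
  rw [← h5, Finsupp.degree_eq_weight_one]
  rfl

theorem hfa_one : ∀ (k i : ℕ) (f g h : MvPolynomial (Fin k) ℂ), f.IsHomogeneous i → f ≠ 0 →
    f = g * h → ∃ a b : ℕ, a + b = i ∧ g.IsHomogeneous a ∧ h.IsHomogeneous b := by
  intro k i f g h hf hf0 hfg
  have hg0 : g ≠ 0 := left_ne_zero_of_mul (hfg ▸ hf0)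
  have hh0 : h ≠ 0 := right_ne_zero_of_mul (hfg ▸ hf0)
  refine ⟨g.totalDegree, h.totalDegree, ?_,
    hfa_homog_of_dvd hf hf0 ⟨h, hfg⟩, hfa_homog_of_dvd hf hf0 ⟨g, by rw [hfg, mul_comm]⟩⟩
  rw [← MvPolynomial.totalDegree_mul_of_isDomain hg0 hh0, ← hfg]
  exact hf.totalDegree hf0

theorem t_HFA : S_HFA := by
  refine ⟨hfa_one, ?_⟩
  intro k q p hq hq0 hpq hpu hqp
  obtain ⟨p', rfl⟩ := hpq
  have hp0 : p ≠ 0 := left_ne_zero_of_mul hq0
  have hp'0 : p' ≠ 0 := right_ne_zero_of_mul hq0
  obtain ⟨a, b, hab, ha, hb⟩ := hfa_one k 2 _ p p' hq hq0 rfl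
  have hunit : ∀ r : MvPolynomial (Fin k) ℂ, r ≠ 0 → r.IsHomogeneous 0 → IsUnit r := by
    intro r hr h0
    have h1 : r.totalDegree = 0 := h0.totalDegree hr
    rw [totalDegree_eq_zero_iff_eq_C] at h1
    have h2 : coeff 0 r ≠ 0 := by
      intro h3
      rw [h3, map_zero] at h1
      exact hr h1
    rw [h1]
    exact (isUnit_iff_ne_zero.2 h2).map C
  have ha0 : a ≠ 0 := by
    rintro rfl
    exact hpu (hunit p hp0 ha)
  have hb0 : b ≠ 0 := by
    rintro rfl
    obtain ⟨u, hu⟩ := hunit p' hp'0 hb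
    apply hqp
    rw [← hu]
    exact (Units.mul_right_dvd).2 dvd_rfl
  have ha1 : a = 1 := by omega
  have hb1 : b = 1 := by omega
  subst ha1 hb1
  exact ⟨p', rfl, ha, hb⟩

end Pool.Agent.NOD.S4
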