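import Pool.Agent.NOD.S4

/-!
# Project NOD, section S4: assembly (helper41)
-/

set_option autoImplicit false

namespace Pool.Agent.NOD.S4

open MvPolynomial Module

theorem t_ASM (hLC : S_LC) (hSYM : S_SYM) (hB1 : S_B1) (hMIN : S_MIN) (hLIN0 : S_LIN0)
    (hLAM : S_LAM) (hBPF : S_BPF) (hHIL : S_HIL) (hSPR : S_SPR) (hPAR : S_PAR) (hPLV : S_PLV)
    (hPLF : S_PLF) (hQDM : S_QDM) (hQUS : S_QUS) (hCOP : S_COP) (hQUD : S_QUD) (hQUF : S_QUF)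
    (hQUR : S_QUR) : S_B := by
  intro e F zs he2 he4 hF hS hcard hrel
  obtain ⟨Γ, hΓ, c, hc⟩ := hMIN zs _ hrel
  obtain ⟨l, hl, hlz⟩ := hLIN0 zs hS.ne
  have hfct := hLAM Γ c l (2 * e - 1) hl (fun z hz => hlz z (hΓ hz))
    (fun z hz w hw hzw t => hS.indep z (hΓ hz) w (hΓ hw) hzw t) hc
  have he : 2 * e - 1 + 1 = 2 * e := by omega
  rw [he] at hfct
  obtain ⟨Λ, hΛ⟩ : ∃ Λ, Λ = Lam Γ c l (2 * e) := ⟨_, rfl⟩
  rw [← hΛ] at hfct
  have hbpf : Bpf (e + 1) Λ := hBPF e F zs Γ l (2 * e) Λ hF hS hΓ hlz hfct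
  obtain ⟨hh1, hh0, hhc⟩ := hHIL Γ l (2 * e) Λ hfct
  have hΓc : Γ.card ≤ 2 * e * (e + 1) := (Finset.card_le_card hΓ).trans hcard
  have hsum : ∀ n, ∑ i ∈ Finset.range (n + 1), H Λ i ≤ HG Γ n := by
    intro n
    induction n with
    | zero => simpa using hh0
    | succ n ih =>
      rw [Finset.sum_range_succ]
      have := hh1 n
      omega
  have hspr := hSPR Γ l (2 * e) Λ hfct
  have hspan : finrank ℂ (Submodule.span ℂ (Γ : Set (Fin 5 → ℂ))) ≤ 5 := by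
    have h1 := Submodule.finrank_le (Submodule.span ℂ (Γ : Set (Fin 5 → ℂ)))
    rwa [finrank_fintype_fun_eq_card, Fintype.card_fin] at h1
  have hsym := hSYM (2 * e) Λ hfct.deg
  have hlow : ∀ i ≤ e, i + 1 ≤ H Λ i := by
    intro i hi
    have h1 := hLC (e + 1) (e - 1) Λ (by omega) (by
      have : e + 1 + (e - 1) = 2 * e := by omega
      rw [this]
      exact hfct.deg) hfct.nz hbpf i (by omega)
    omega
  have hlow' : e ≤ H Λ (e + 1) := by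
    have h1 := hLC (e + 1) (e - 1) Λ (by omega) (by
      have : e + 1 + (e - 1) = 2 * e := by omega
      rw [this]
      exact hfct.deg) hfct.nz hbpf (e + 1) (by omega)
    omega
  have key := hB1 e Λ he2 he4 hfct.deg hfct.nz hbpf (by omega)
    ((hsum (2 * e)).trans ((hhc _).trans hΓc))
  rcases key with h2 | ⟨h3, h4, h5⟩
  · left
    obtain ⟨L, hL, hLr, hL1⟩ := hPAR Γ 3 (by rw [← hspr, h2])
    obtain ⟨h6, h7⟩ := hPLV e (2 * e) L Γ l Λ hL hfct hLr hlow hlow'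
    exact hPLF e L F zs Γ (by omega) hF hS hΓ hL (h6 1 (by omega)) h7
  · obtain ⟨L, hL, hLr, hL1⟩ := hPAR Γ 4 (by rw [← hspr, h3])
    have hV1 : ∀ f ∈ Van (pre L Γ) 1, f = 0 := fun f hf => hL1 f hf.1 fun w hw => hf.2 w hw
    obtain ⟨d1, d2, d3⟩ := hQDM e L Γ l Λ he2 hL hfct hLr hΓc (fun i hi => hsym i hi) h4 h5
    obtain ⟨q, e₁, hq, hq0, he₁, hqe, hql, hqt⟩ := hQUS e (pre L Γ) he2 d1 d2
    have hcop := hCOP e L Γ l Λ q e₁ he2 hL hfct hbpf hLr hV1 hq hq0 he₁ hqe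
    have he₁0 : e₁ ≠ 0 := by
      rintro rfl
      exact hqe (dvd_zero q)
    obtain ⟨f, hf, hfd⟩ := hQUD e (pre L Γ) q e₁ he2 d3 hq hq0 he₁ he₁0 hcop
    obtain ⟨q₁, h8, h9, h10⟩ := hQUF e L F zs Γ q e₁ f he2 hF hS hΓ hL hV1 hq hq0 he₁ hqe hql hqt
      hf hfd
    exact hQUR L F q₁ hL h8 h9 h10

end Pool.Agent.NOD.S4
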