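import Pool.Agent.NOD.S4

/-!
Piece BPF: the annihilator has no base points in degree `e + 1`.
-/

set_option autoImplicit false

namespace Pool.Agent.NOD.S4

open MvPolynomial Module

/-- the value of a form at a multiple of a point -/
theorem bpf_eval_smul (n : ℕ) {f : A} (hf : f.IsHomogeneous n) (c : ℂ) (z : Fin 5 → ℂ) :
    eval (c • z) f = c ^ n * eval z f := by
  rw [eval_eq', eval_eq', Finset.mul_sum]
  refine Finset.sum_congr rfl fun d hd => ?_
  have h1 : ∑ i, d i = n := by
    have h2 := hf (mem_support_iff.1 hd)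
    rw [← h2, Finsupp.weight_apply, Finsupp.sum_fintype _ _ (by simp)]
    simp
  have h3 : ∏ i, (c • z) i ^ d i = c ^ n * ∏ i, z i ^ d i := by
    rw [← h1, ← Finset.prod_pow_eq_pow_sum, ← Finset.prod_mul_distrib]
    exact Finset.prod_congr rfl fun i _ => by rw [Pi.smul_apply, smul_eq_mul, mul_pow]
  rw [h3]
  ring

theorem t_BPF : S_BPF := by
  intro e F zs Γ l n Λ hF hS hsub hl hΛ v hv
  by_cases h : ∀ i, eval v (pderiv i F) = 0
  · obtain ⟨z, hz, c, rfl⟩ := hS.cover v hv h
    refine ⟨l ^ (e + 1), ?_, ?_, ?_⟩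
    · have h1 := hΛ.hom.pow (e + 1)
      rwa [one_mul] at h1
    · refine LinearMap.ext fun g => ?_
      have h1 := LinearMap.congr_fun hΛ.kill (l ^ e * g)
      change Λ (l ^ (e + 1) * g) = 0
      change Λ (l * (l ^ e * g)) = 0 at h1
      rw [pow_succ', mul_assoc]
      exact h1
    · rw [map_pow]
      refine pow_ne_zero _ ?_
      have hc : c ≠ 0 := by
        rintro rfl
        exact hv (zero_smul _ _)
      have h1 : eval (c • z) l = c * eval z l := by
        rw [bpf_eval_smul 1 hΛ.hom c z, pow_one]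
      rw [h1]
      exact mul_ne_zero hc (hl z hz)
  · push Not at h
    obtain ⟨i, hi⟩ := h
    refine ⟨pderiv i F, ?_, ?_, hi⟩
    · have h1 := hF.pderiv (i := i)
      exact h1
    · exact hΛ.van (e + 1) _ (hF.pderiv (i := i)) fun z hz => hS.zero z (hsub hz) i

end Pool.Agent.NOD.S4
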