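import Pool.Agent.NOD.S4

/-!
# Piece COP: `q` and `e₁` are coprime
-/

set_option autoImplicit false

namespace Pool.Agent.NOD.S4

open MvPolynomial Module

noncomputable section

namespace COPX

/-- a functional of degree `n` on a product with a linear form -/
theorem deg_ctr (n : ℕ) (Λ : A →ₗ[ℂ] ℂ) (pt : A) (hpt : pt.IsHomogeneous 1) (h : Deg (n + 1) Λ) :
    Deg n (ctr pt Λ) := by
  intro g
  change Λ (pt * g) = Λ (pt * homogeneousComponent n g)
  have key : ∀ i, Λ (pt * homogeneousComponent i g) =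
      if i = n then Λ (pt * homogeneousComponent n g) else 0 := by
    intro i
    split_ifs with hi
    · rw [hi]
    · have h1 : (pt * homogeneousComponent i g).IsHomogeneous (1 + i) :=
        hpt.mul (homogeneousComponent_isHomogeneous i g)
      rw [h, homogeneousComponent_of_mem h1, if_neg (by omega), map_zero]
  conv_lhs => rw [← sum_homogeneousComponent g, Finset.mul_sum, map_sum]
  rw [Finset.sum_congr rfl fun i _ => key i, Finset.sum_ite_eq']
  split_ifs with hn
  · rfl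
  · rw [homogeneousComponent_eq_zero n g (by
      rw [Finset.mem_range] at hn
      omega), mul_zero, map_zero]

theorem bpf_ctr (m : ℕ) (Λ : A →ₗ[ℂ] ℂ) (pt : A) (h : Bpf m Λ) : Bpf m (ctr pt Λ) := by
  intro v hv
  obtain ⟨f, hf, h0, hne⟩ := h v hv
  refine ⟨f, hf, ?_, hne⟩
  refine LinearMap.ext fun g => ?_
  have h1 : ctr f Λ (pt * g) = 0 := by rw [h0]; rfl
  have h2 : Λ (f * (pt * g)) = 0 := h1
  change Λ (pt * (f * g)) = 0
  rw [show pt * (f * g) = f * (pt * g) by ring]
  exact h2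

end COPX

open COPX in
theorem t_COP (hHFA : S_HFA) (hLEC : S_LEC) (hSUR : S_SUR) (hLC : Pool.Agent.NOD.S_LC)
    (hp : S5.S_PUL) : S_COP := by
  intro e L Γ l Λ q e₁ he hL hF hB hcov h1 hq hq0 he1 hqe p hpq hpe
  by_contra hu
  have hqp : ¬ q ∣ p := fun h => hqe (h.trans hpe)
  obtain ⟨p', hqpp, hp1, hp1'⟩ := hHFA.2 4 q p hq.1 hq0 hpq hu hqp
  have hp0 : p ≠ 0 := by
    rintro rfl
    rw [zero_mul] at hqpp
    exact hq0 hqpp
  have hp0' : p' ≠ 0 := by
    rintro rfl
    rw [mul_zero] at hqpp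
    exact hq0 hqpp
  have he10 : e₁ ≠ 0 := by
    rintro rfl
    exact hqe (dvd_zero _)
  obtain ⟨f, hf⟩ := hpe
  obtain ⟨a, b, hab, ha, hb⟩ := hHFA.1 4 e e₁ p f he1.1 he10 hf
  have ha1 : a = 1 := ha.inj_right hp1 hp0
  have hfe : f.IsHomogeneous (e - 1) := by
    rw [show e - 1 = b by omega]
    exact hb
  have hpf : ¬ p' ∣ f := by
    rintro ⟨c, hc⟩
    apply hqe
    refine ⟨c, ?_⟩
    rw [hf, hc, hqpp]
    ring
  -- the linear form
  have hlv : ∀ w ∈ pre L Γ, eval w (S5.pull L l) ≠ 0 := by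
    intro w hw
    rw [(hp 4 5 L l).1 w]
    exact hF.ne _ hw
  have hlh : (S5.pull L l).IsHomogeneous 1 := (hp 4 5 L l).2.1 1 hF.hom
  have hpre : (pre L Γ).Nonempty := by
    obtain ⟨z, hz⟩ := hF.nonempty
    obtain ⟨w, hw⟩ := hcov z hz
    exact ⟨w, by change L w ∈ Γ; rw [hw]; exact hz⟩
  have hzero : ∀ w ∈ pre L Γ, eval w p * eval w p' = 0 := by
    intro w hw
    rw [← map_mul, ← hqpp]
    exact hq.2 w hw
  have hnot : ∀ t : ℂ, p ≠ C t * S5.pull L l := by
    intro t ht
    by_cases ht0 : t = 0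
    · rw [ht0, C_0, zero_mul] at ht
      exact hp0 ht
    · apply hp0'
      apply h1
      refine ⟨hp1', fun w hw => ?_⟩
      refine (mul_eq_zero.1 (hzero w hw)).resolve_left ?_
      rw [ht, map_mul, eval_C]
      exact mul_ne_zero ht0 (hlv w hw)
  have hnot' : ∀ t : ℂ, p' ≠ C t * S5.pull L l := by
    intro t ht
    by_cases ht0 : t = 0
    · rw [ht0, C_0, zero_mul] at ht
      exact hp0' ht
    · apply hp0
      apply h1
      refine ⟨hp1, fun w hw => ?_⟩
      refine (mul_eq_zero.1 (hzero w hw)).resolve_right ?_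
      rw [ht, map_mul, eval_C]
      exact mul_ne_zero ht0 (hlv w hw)
  have hli : LinearIndependent ℂ ![S5.pull L l, p'] := by
    rw [LinearIndependent.pair_iff]
    intro s t hst
    have ht : t = 0 := by
      by_contra ht
      apply hnot' (-(t⁻¹ * s))
      rw [smul_eq_C_mul, smul_eq_C_mul] at hst
      have h2 : C t⁻¹ * (C s * S5.pull L l + C t * p') = 0 := by rw [hst, mul_zero]
      have h3 : C t⁻¹ * (C t * p') = p' := by
        rw [← mul_assoc, ← C_mul, inv_mul_cancel₀ ht, C_1, one_mul]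
      rw [mul_add, h3] at h2
      rw [C_neg, C_mul]
      linear_combination h2
    refine ⟨?_, ht⟩
    rw [ht, zero_smul, add_zero] at hst
    obtain ⟨w, hw⟩ := hpre
    have h2 := congrArg (eval w) hst
    rw [smul_eval, map_zero] at h2
    exact (mul_eq_zero.1 h2).resolve_right (hlv w hw)
  obtain ⟨pt, hpt1, hpt⟩ := hSUR 4 5 L hL 1 p hp1
  have hne : ctr pt Λ ≠ 0 := by
    intro h0
    obtain ⟨t, ht⟩ := hF.lin pt hpt1 h0
    apply hnot t
    have : p - C t * S5.pull L l = 0 := by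
      apply h1
      refine ⟨?_, fun w hw => ?_⟩
      · have h2 : (C t * S5.pull L l).IsHomogeneous (0 + 1) := (isHomogeneous_C _ _).mul hlh
        rw [zero_add] at h2
        exact hp1.sub h2
      · rw [map_sub, map_mul, eval_C, ← hpt, (hp 4 5 L pt).1, (hp 4 5 L l).1, ht _ hw, sub_self]
    exact sub_eq_zero.1 this
  have hdeg : Deg (e + 1 + (e - 2)) (ctr pt Λ) := by
    apply deg_ctr _ _ _ hpt1
    rw [show e + 1 + (e - 2) + 1 = 2 * e by omega]
    exact hF.deg
  have hlow := hLC (e + 1) (e - 2) (ctr pt Λ) (by omega) hdeg hne (bpf_ctr _ _ _ hB)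
  obtain ⟨i, hi, hHi⟩ := hLEC (e - 1) (2 * e) L Γ l pt Λ p p' f hL hF hcov hpt1 hpt hp1 hp1'
    (fun w hw => by rw [map_mul]; exact hzero w hw) hli hfe hpf (fun w hw hpw => by
      have h2 := he1.2 w hw
      rw [hf, map_mul] at h2
      exact (mul_eq_zero.1 h2).resolve_left hpw)
  have h3 := hlow i (by omega)
  have h4 : i + 1 ≤ min (i + 1) (min (e - 2 + 2) (e + 1 + (e - 2) - i + 1)) := by
    refine le_min le_rfl (le_min ?_ ?_) <;> omega
  omega

end

end Pool.Agent.NOD.S4
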