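import Pool.Agent.NOD.S4

/-! Project NOD, section S4, piece DIM (adapted from Pool/Agent/NOD/S5/HOM4.lean). -/

set_option autoImplicit false

namespace Pool.Agent.NOD.S4

open MvPolynomial Module

theorem t_DIM : S_DIM := by
  intro k i
  have h1 : homogeneousSubmodule (Fin (k + 1)) ℂ i =
      restrictSupport ℂ {d : Fin (k + 1) →₀ ℕ | d.degree = i} :=
    homogeneousSubmodule_eq_finsupp_supported (R := ℂ) (σ := Fin (k + 1)) i
  show finrank ℂ (homogeneousSubmodule (Fin (k + 1)) ℂ i) = _
  rw [h1, Module.finrank_eq_nat_card_basis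
    (basisRestrictSupport ℂ {d : Fin (k + 1) →₀ ℕ | d.degree = i})]
  have e : {d : Fin (k + 1) →₀ ℕ | d.degree = i} ≃ Sym (Fin (k + 1)) i :=
    (Equiv.subtypeEquivRight (fun d => Iff.rfl)).trans
      (Sym.equivNatSum (Fin (k + 1)) i).symm
  rw [Nat.card_congr e, Nat.card_eq_fintype_card, Sym.card_sym_eq_choose, Fintype.card_fin]
  have : k + 1 + i - 1 = i + k := by omega
  rw [this, ← Nat.choose_symm_add]

end Pool.Agent.NOD.S4
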