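import Pool.Agent.NOD.S4

/-!
# Project NOD, section S4, piece EUL
-/

set_option autoImplicit false

namespace Pool.Agent.NOD.S4

open MvPolynomial

theorem t_EUL (hp : S5.S_PUL) : S_EUL := by
  intro k n L F zs Γ hF hS hΓ
  have hpull : ∀ (f : A) (v : Fin k → ℂ), eval v (S5.pull L f) = eval (L v) f :=
    fun f v => (hp k 5 L f).1 v
  refine ⟨fun i => ⟨?_, ?_⟩, fun l => pderiv l (S5.pull L F), fun l => ⟨?_, ?_⟩, ?_⟩
  · have := (hp k 5 L (pderiv i F)).2.1 n (by
      have := hF.pderiv (i := i)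
      rwa [Nat.add_sub_cancel] at this)
    exact this
  · intro w hw
    rw [hpull]
    exact hS.zero _ (hΓ hw) i
  · have h1 := ((hp k 5 L F).2.1 (n + 1) hF).pderiv (i := l)
    rwa [Nat.add_sub_cancel] at h1
  · intro w hw
    have h1 := (hp k 5 L F).2.2 w l
    simp only [S5.grad] at h1
    rw [h1]
    refine Finset.sum_eq_zero fun i _ => ?_
    rw [hS.zero _ (hΓ hw) i, mul_zero]
  · have h1 := ((hp k 5 L F).2.1 (n + 1) hF).sum_X_mul_pderiv
    rw [h1, nsmul_eq_mul]
    simp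

end Pool.Agent.NOD.S4
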