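import Pool.Agent.NOD.S4

/-!
# Project NOD, section S4, piece GRD
-/

set_option autoImplicit false

namespace Pool.Agent.NOD.S4

open MvPolynomial Module

namespace GRD

/-- The linear algebra: `r` rows whose span contains all the columns of `Lᵀ Hess` are independent. -/
theorem core (r : ℕ) (L : (Fin (r + 1) → ℂ) →ₗ[ℂ] (Fin 5 → ℂ)) (hL : Function.Injective L)
    (V : Matrix (Fin r) (Fin (r + 1)) ℂ) (Hs : Matrix (Fin 5) (Fin 5) ℂ) (hHs : Hs.rank = 4)
    (hG : ∀ i, ∃ b : Fin r → ℂ, ∀ j, ∑ a, L (Pi.single j 1) a * Hs a i = ∑ t, b t * V t j) :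
    LinearIndependent ℂ V.row := by
  have hker : ∀ x ∈ LinearMap.ker V.mulVecLin, L x ∈ LinearMap.ker Hs.transpose.mulVecLin := by
    intro x hx
    rw [LinearMap.mem_ker, Matrix.mulVecLin_apply] at hx ⊢
    funext i
    obtain ⟨b, hG⟩ := hG i
    have hx' : ∀ t, ∑ j, V t j * x j = 0 := fun t => congr_fun hx t
    have hLx : ∀ a, L x a = ∑ j, x j * L (Pi.single j 1) a := by
      intro a
      have h1 : x = ∑ j, x j • (Pi.single j (1 : ℂ) : Fin (r + 1) → ℂ) := by
        conv_lhs => rw [← Finset.univ_sum_single x]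
        refine Finset.sum_congr rfl fun j _ => ?_
        rw [← Pi.single_smul', smul_eq_mul, mul_one]
      conv_lhs => rw [h1]
      rw [map_sum, Finset.sum_apply]
      refine Finset.sum_congr rfl fun j _ => ?_
      rw [map_smul, Pi.smul_apply, smul_eq_mul]
    rw [Matrix.mulVec, dotProduct, Pi.zero_apply]
    calc ∑ a, Hs.transpose i a * L x a = ∑ a, ∑ j, x j * (L (Pi.single j 1) a * Hs a i) := by
          refine Finset.sum_congr rfl fun a _ => ?_
          rw [Matrix.transpose_apply, hLx, Finset.mul_sum]
          exact Finset.sum_congr rfl fun j _ => by ring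
      _ = ∑ j, x j * ∑ a, L (Pi.single j 1) a * Hs a i := by
          rw [Finset.sum_comm]
          exact Finset.sum_congr rfl fun j _ => by rw [Finset.mul_sum]
      _ = ∑ j, ∑ t, b t * (V t j * x j) := by
          refine Finset.sum_congr rfl fun j _ => ?_
          rw [hG, Finset.mul_sum]
          exact Finset.sum_congr rfl fun t _ => by ring
      _ = ∑ t, b t * ∑ j, V t j * x j := by
          rw [Finset.sum_comm]
          exact Finset.sum_congr rfl fun j _ => by rw [Finset.mul_sum]
      _ = 0 := Finset.sum_eq_zero fun t _ => by rw [hx' t, mul_zero]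
  have hk1 : finrank ℂ (LinearMap.ker Hs.transpose.mulVecLin) = 1 := by
    have h1 := LinearMap.finrank_range_add_finrank_ker Hs.transpose.mulVecLin
    have h2 : finrank ℂ (LinearMap.range Hs.transpose.mulVecLin) = 4 := by
      rw [← hHs, ← Matrix.rank_transpose Hs, Matrix.rank]
    rw [h2, Module.finrank_fintype_fun_eq_card, Fintype.card_fin] at h1
    omega
  have hk2 : finrank ℂ (LinearMap.ker V.mulVecLin) ≤ 1 := by
    refine (LinearMap.finrank_le_finrank_of_injective (f := LinearMap.restrict L hker) ?_).trans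
      hk1.le
    intro x y hxy
    apply Subtype.ext
    apply hL
    exact congr_arg Subtype.val hxy
  have hrk : r ≤ V.rank := by
    have h1 := LinearMap.finrank_range_add_finrank_ker V.mulVecLin
    rw [Module.finrank_fintype_fun_eq_card, Fintype.card_fin] at h1
    rw [Matrix.rank]
    omega
  rw [linearIndependent_iff_card_le_finrank_span, Fintype.card_fin]
  rw [Matrix.rank_eq_finrank_span_row] at hrk
  exact hrk

end GRD

theorem t_GRD (hp : S5.S_PUL) : S_GRD := by
  intro r L F zs w s α t₀ hL hS hz hs ht₀ hb hF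
  have hprod : ∀ (j : Fin (r + 1)) (b : Fin r → MvPolynomial (Fin (r + 1)) ℂ),
      eval w (pderiv j (∑ t, b t * s t)) = ∑ t, eval w (b t) * eval w (pderiv j (s t)) := by
    intro j b
    rw [map_sum, map_sum]
    refine Finset.sum_congr rfl fun t _ => ?_
    rw [pderiv_mul, map_add, map_mul, map_mul, hs t, mul_zero, zero_add]
  have hLI := GRD.core r L hL (Matrix.of fun t j => eval w (pderiv j (s t)))
    (Matrix.of fun i j : Fin 5 => eval (L w) (pderiv i (pderiv j F))) (hS.node (L w) hz) (by
      intro i
      obtain ⟨b, hb⟩ := hb i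
      refine ⟨fun t => eval w (b t), fun j => ?_⟩
      have h1 := (hp _ _ L (pderiv i F)).2.2 w j
      unfold S5.grad at h1
      rw [hb, hprod] at h1
      simp only [Matrix.of_apply]
      exact h1.symm)
  have hzero : ∑ t, eval w (α t) • (Matrix.of fun (t : Fin r) (j : Fin (r + 1)) =>
      eval w (pderiv j (s t))).row t = 0 := by
    funext j
    rw [Finset.sum_apply, Pi.zero_apply]
    simp only [Pi.smul_apply, Matrix.row_apply, Matrix.of_apply, smul_eq_mul]
    rw [← hprod, ← hF, pderiv_mul, pderiv_C, zero_mul, zero_add, map_mul]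
    have h2 := (hp _ _ L F).2.2 w j
    unfold S5.grad at h2
    rw [h2]
    have h4 : ∀ i, eval (L w) (pderiv i F) = 0 := fun i => hS.zero (L w) hz i
    simp [h4]
  intro t
  exact (Fintype.linearIndependent_iff.mp hLI) (fun t => eval w (α t)) hzero t

end Pool.Agent.NOD.S4
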