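import Pool.Agent.NOD.S4

/-!
# Project NOD, section S4, piece HIL (Hilbert functions)
-/

set_option autoImplicit false

namespace Pool.Agent.NOD.S4

open MvPolynomial Module

namespace HIL

instance fd (k i : ℕ) : FiniteDimensional ℂ (homogeneousSubmodule (Fin k) ℂ i) := by
  have : homogeneousSubmodule (Fin k) ℂ i ≤ restrictTotalDegree (Fin k) ℂ i := by
    intro f hf
    rw [mem_restrictTotalDegree]
    exact IsHomogeneous.totalDegree_le hf
  exact Submodule.finiteDimensional_of_le this

/-- the dimension of a preimage -/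
theorem comap_finrank {V W₂ : Type*} [AddCommGroup V] [Module ℂ V] [FiniteDimensional ℂ V]
    [AddCommGroup W₂] [Module ℂ W₂] (β : V →ₗ[ℂ] W₂) (U : Submodule ℂ W₂)
    (hU : U ≤ LinearMap.range β) :
    finrank ℂ (U.comap β) = finrank ℂ U + finrank ℂ (LinearMap.ker β) := by
  let β' : U.comap β →ₗ[ℂ] U := β.restrict (fun v hv => hv)
  have h6 := LinearMap.finrank_range_add_finrank_ker β'
  have h7 : LinearMap.range β' = ⊤ := by
    rw [LinearMap.range_eq_top]
    rintro ⟨u, hu⟩
    obtain ⟨v, hv⟩ := hU hu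
    refine ⟨⟨v, ?_⟩, ?_⟩
    · show β v ∈ U
      rw [hv]; exact hu
    · apply Subtype.ext
      show β v = u
      exact hv
  have h8 : finrank ℂ (LinearMap.ker β') = finrank ℂ (LinearMap.ker β) := by
    have h9 : (LinearMap.ker β').map (U.comap β).subtype = LinearMap.ker β := by
      ext v
      rw [Submodule.mem_map]
      constructor
      · rintro ⟨x, hx, rfl⟩
        rw [LinearMap.mem_ker] at hx ⊢
        exact congrArg Subtype.val hx
      · intro hv
        have hv' : β v = 0 := hv
        refine ⟨⟨v, ?_⟩, ?_, rfl⟩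
        · show β v ∈ U
          rw [hv']; exact U.zero_mem
        · rw [LinearMap.mem_ker]
          apply Subtype.ext
          exact hv'
    rw [← h9, Submodule.finrank_map_subtype_eq]
  rw [h7, finrank_top, h8] at h6
  omega

/-- comparison of the ranks of two linear maps on a finite-dimensional space -/
theorem rank_cmp {V W₁ W₂ : Type*} [AddCommGroup V] [Module ℂ V] [FiniteDimensional ℂ V]
    [AddCommGroup W₁] [Module ℂ W₁] [AddCommGroup W₂] [Module ℂ W₂]
    (α : V →ₗ[ℂ] W₁) (β : V →ₗ[ℂ] W₂) (U : Submodule ℂ W₂) (hU : U ≤ LinearMap.range β)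
    (h : ∀ v, β v ∈ U → α v = 0) :
    finrank ℂ (LinearMap.range α) + finrank ℂ U ≤ finrank ℂ (LinearMap.range β) := by
  have h1 : U.comap β ≤ LinearMap.ker α := fun v hv => h v hv
  have h2 := LinearMap.finrank_range_add_finrank_ker α
  have h3 := LinearMap.finrank_range_add_finrank_ker β
  have h4 : finrank ℂ (U.comap β) ≤ finrank ℂ (LinearMap.ker α) := Submodule.finrank_mono h1
  have h5 := comap_finrank β U hU
  omega

end HIL

theorem t_HIL : S_HIL := by
  classical
  intro Γ l n Λ hF
  -- the two maps on the forms of degree `i`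
  have hW : ∀ i, W Λ i = LinearMap.range ((ctrL Λ) ∘ₗ (homogeneousSubmodule (Fin 5) ℂ i).subtype) := by
    intro i
    rw [LinearMap.range_comp, Submodule.range_subtype]
    rfl
  have hV : ∀ i, (homogeneousSubmodule (Fin 5) ℂ i).map (evG Γ) =
      LinearMap.range ((evG Γ) ∘ₗ (homogeneousSubmodule (Fin 5) ℂ i).subtype) := by
    intro i
    rw [LinearMap.range_comp, Submodule.range_subtype]
  have hev : ∀ (f : A) (z : Γ), evG Γ f z = eval (z : Fin 5 → ℂ) f := by
    intro f z
    show aeval (z : Fin 5 → ℂ) f = _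
    rw [aeval_eq_eval]
  have hvan : ∀ (i : ℕ) (f : A), f.IsHomogeneous i → evG Γ f = 0 → ctr f Λ = 0 := by
    intro i f hf h0
    refine hF.van i f hf fun z hz => ?_
    have := congrFun h0 ⟨z, hz⟩
    rw [hev] at this
    exact this
  refine ⟨?_, ?_, ?_⟩
  · intro i
    let μ : (Γ → ℂ) →ₗ[ℂ] (Γ → ℂ) := LinearMap.mulLeft ℂ (fun z : Γ => eval (z : Fin 5 → ℂ) l)
    have hμ : Function.Injective μ := by
      intro x y hxy
      funext z
      have h1 := congrFun hxy z
      have h2 : eval (z : Fin 5 → ℂ) l * x z = eval (z : Fin 5 → ℂ) l * y z := h1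
      exact mul_left_cancel₀ (hF.ne _ z.2) h2
    have hμe : ∀ g : A, μ (evG Γ g) = evG Γ (l * g) := by
      intro g
      funext z
      rw [hev, map_mul, ← hev g]
      rfl
    have key := HIL.rank_cmp ((ctrL Λ) ∘ₗ (homogeneousSubmodule (Fin 5) ℂ (i + 1)).subtype)
      ((evG Γ) ∘ₗ (homogeneousSubmodule (Fin 5) ℂ (i + 1)).subtype)
      (((homogeneousSubmodule (Fin 5) ℂ i).map (evG Γ)).map μ) (by
        rintro _ ⟨_, ⟨g, hg, rfl⟩, rfl⟩
        refine ⟨⟨l * g, ?_⟩, ?_⟩
        · have := hF.hom.mul (show g.IsHomogeneous i from hg)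
          rwa [add_comm] at this
        · exact (hμe g).symm) (by
        rintro ⟨f, hf⟩ ⟨_, ⟨g, hg, rfl⟩, hfg⟩
        have hlg : (l * g).IsHomogeneous (i + 1) := by
          have := hF.hom.mul (show g.IsHomogeneous i from hg)
          rwa [add_comm] at this
        have hfg' : evG Γ (l * g) = evG Γ f := by
          rw [← hμe]
          exact hfg
        have h1 : ctr (f - l * g) Λ = 0 := by
          refine hvan (i + 1) _ (IsHomogeneous.sub hf hlg) ?_
          rw [map_sub, hfg', sub_self]
        have h2 : ctr (l * g) Λ = 0 := by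
          refine LinearMap.ext fun x => ?_
          show Λ (l * g * x) = 0
          have := LinearMap.congr_fun hF.kill (g * x)
          rw [mul_assoc]
          exact this
        have h3 : ctrL Λ (f - l * g) = ctrL Λ f - ctrL Λ (l * g) := map_sub _ _ _
        have h4 : ctrL Λ (f - l * g) = 0 := h1
        have h5 : ctrL Λ (l * g) = 0 := h2
        rw [h4, h5, sub_zero] at h3
        exact h3.symm)
    rw [← hW, ← hV] at key
    have h6 : finrank ℂ (((homogeneousSubmodule (Fin 5) ℂ i).map (evG Γ)).map μ) = HG Γ i :=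
      (Submodule.equivMapOfInjective μ hμ _).finrank_eq.symm
    rw [h6] at key
    exact key
  · have key := HIL.rank_cmp ((ctrL Λ) ∘ₗ (homogeneousSubmodule (Fin 5) ℂ 0).subtype)
      ((evG Γ) ∘ₗ (homogeneousSubmodule (Fin 5) ℂ 0).subtype) ⊥ bot_le (by
        rintro ⟨f, hf⟩ hf0
        rw [Submodule.mem_bot] at hf0
        exact hvan 0 f hf hf0)
    rw [← hW, ← hV, finrank_bot, add_zero] at key
    exact key
  · intro i
    refine (Submodule.finrank_le _).trans ?_
    rw [Module.finrank_fintype_fun_eq_card, Fintype.card_coe]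

end Pool.Agent.NOD.S4
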