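import Pool.Agent.NOD.S4

/-! Project NOD, section S4, pieces KER, SUR, UPB. -/

set_option autoImplicit false

namespace Pool.Agent.NOD.S4

open MvPolynomial Module

theorem ker_hc_mul {n : ℕ} (p F : MvPolynomial (Fin n) ℂ) (a m : ℕ) (hF : F.IsHomogeneous m) :
    homogeneousComponent (a + m) (p * F) = homogeneousComponent a p * F := by
  conv_lhs => rw [← sum_homogeneousComponent p]
  rw [Finset.sum_mul, map_sum]
  have h : ∀ i, homogeneousComponent (a + m) (homogeneousComponent i p * F) =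
      if a = i then homogeneousComponent i p * F else 0 := by
    intro i
    have h1 : (homogeneousComponent i p * F).IsHomogeneous (i + m) :=
      (homogeneousComponent_isHomogeneous i p).mul hF
    rw [homogeneousComponent_of_mem h1]
    by_cases hi : a = i
    · simp [hi]
    · rw [if_neg hi, if_neg (by omega)]
  simp only [h]
  rw [Finset.sum_ite_eq]
  split_ifs with ha
  · rfl
  · rw [homogeneousComponent_eq_zero, zero_mul]
    rw [Finset.mem_range] at ha
    omega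

/-- a form of degree one is a linear functional -/
lemma exists_lin {j : ℕ} (f : MvPolynomial (Fin j) ℂ) (hf : f.IsHomogeneous 1) :
    ∃ φ : (Fin j → ℂ) →ₗ[ℂ] ℂ, ∀ v, eval v f = φ v := by
  have h1 : f ∈ Submodule.span ℂ (Set.range (X : Fin j → MvPolynomial (Fin j) ℂ)) := by
    rw [← homogeneousSubmodule_one_eq_span_X]
    exact hf
  refine Submodule.span_induction (p := fun f _ => ∃ φ : (Fin j → ℂ) →ₗ[ℂ] ℂ, ∀ v, eval v f = φ v)
    ?_ ?_ ?_ ?_ h1
  · rintro _ ⟨i, rfl⟩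
    exact ⟨LinearMap.proj i, fun v => by rw [eval_X]; rfl⟩
  · exact ⟨0, fun v => by rw [map_zero]; rfl⟩
  · rintro f g _ _ ⟨φ, hφ⟩ ⟨ψ, hψ⟩
    exact ⟨φ + ψ, fun v => by rw [map_add, hφ, hψ]; rfl⟩
  · rintro a f _ ⟨φ, hφ⟩
    exact ⟨a • φ, fun v => by rw [smul_eval, hφ]; rfl⟩

lemma pull_leftInv (hp : S5.S_PUL) {k j : ℕ} {L : (Fin k → ℂ) →ₗ[ℂ] (Fin j → ℂ)}
    {R : (Fin j → ℂ) →ₗ[ℂ] (Fin k → ℂ)} (hR : ∀ w, R (L w) = w) (g : MvPolynomial (Fin k) ℂ) :
    S5.pull L (S5.pull R g) = g := by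
  refine MvPolynomial.funext fun x => ?_
  rw [(hp k j L _).1, (hp j k R _).1, hR]

theorem t_SUR (hp : S5.S_PUL) : S_SUR := by
  intro k j L hL i g hg
  obtain ⟨R, hR⟩ := LinearMap.exists_leftInverse_of_injective L (LinearMap.ker_eq_bot.2 hL)
  have hRL : ∀ w, R (L w) = w := fun v => LinearMap.congr_fun hR v
  exact ⟨S5.pull R g, (hp j k R g).2.1 i hg, pull_leftInv hp hRL g⟩

/-- modulo the linear forms which vanish on the range of `L` -/
lemma sub_mem {k j : ℕ} (L : (Fin k → ℂ) →ₗ[ℂ] (Fin j → ℂ))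
    (R : (Fin j → ℂ) →ₗ[ℂ] (Fin k → ℂ)) (I : Ideal (MvPolynomial (Fin j) ℂ))
    (hI : ∀ t, X t - S5.pull R (S5.pull L (X t)) ∈ I) (f : MvPolynomial (Fin j) ℂ) :
    f - S5.pull R (S5.pull L f) ∈ I := by
  rw [← Ideal.Quotient.eq]
  have key : (Ideal.Quotient.mkₐ ℂ I) =
      (Ideal.Quotient.mkₐ ℂ I).comp ((S5.pull R).comp (S5.pull L)) := by
    refine MvPolynomial.algHom_ext fun i => ?_
    change Ideal.Quotient.mk I (X i) = Ideal.Quotient.mk I (S5.pull R (S5.pull L (X i)))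
    rw [Ideal.Quotient.eq]
    exact hI i
  exact DFunLike.congr_fun key f

theorem t_KER (hp : S5.S_PUL) : S_KER := by
  intro k j r L S hL hS hv i f hf hf0
  obtain ⟨R, hR⟩ := LinearMap.exists_leftInverse_of_injective L (LinearMap.ker_eq_bot.2 hL)
  have hRL : ∀ w, R (L w) = w := fun v => LinearMap.congr_fun hR v
  have hev : ∀ (g : MvPolynomial (Fin j) ℂ) x, eval x (S5.pull R (S5.pull L g)) =
      eval (L (R x)) g := fun g x => by rw [(hp j k R _).1, (hp k j L _).1]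
  choose φ hφ using fun s => exists_lin (S s) (hS s)
  have hX : ∀ t, X t - S5.pull R (S5.pull L (X t)) ∈ Ideal.span (Set.range S) := by
    intro t
    have h1 : (LinearMap.proj t ∘ₗ (LinearMap.id - L ∘ₗ R) : (Fin j → ℂ) →ₗ[ℂ] ℂ) ∈
        Submodule.span ℂ (Set.range φ) := by
      apply mem_span_of_iInf_ker_le_ker
      intro x hx
      rw [Submodule.mem_iInf] at hx
      obtain ⟨w, hw⟩ := hv x (fun s => by rw [hφ]; exact hx s)
      rw [LinearMap.mem_ker]
      simp only [LinearMap.comp_apply, LinearMap.sub_apply, LinearMap.id_apply, LinearMap.proj_apply]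
      rw [← hw, hRL, sub_self]
      rfl
    rw [Submodule.mem_span_range_iff_exists_fun] at h1
    obtain ⟨c, hc⟩ := h1
    have h2 : X t - S5.pull R (S5.pull L (X t)) = ∑ s, C (c s) * S s := by
      refine MvPolynomial.funext fun x => ?_
      rw [map_sub, hev, eval_X, eval_X, map_sum]
      have h3 := LinearMap.congr_fun hc x
      simp only [LinearMap.comp_apply, LinearMap.sub_apply, LinearMap.id_apply,
        LinearMap.proj_apply, LinearMap.sum_apply, LinearMap.smul_apply, smul_eq_mul,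
        Pi.sub_apply] at h3
      rw [← h3]
      refine Finset.sum_congr rfl fun s _ => ?_
      rw [map_mul, eval_C, hφ]
    rw [h2]
    exact Ideal.sum_mem _ fun s _ => Ideal.mul_mem_left _ _ (Ideal.subset_span ⟨s, rfl⟩)
  have h1 := sub_mem L R _ hX f
  rw [hf0, map_zero, sub_zero, Ideal.mem_span_range_iff_exists_fun] at h1
  obtain ⟨a, ha⟩ := h1
  refine ⟨fun s => homogeneousComponent i (a s), fun s => homogeneousComponent_isHomogeneous _ _, ?_⟩
  have h2 : homogeneousComponent (i + 1) f = f := homogeneousComponent_eq_self hf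
  rw [← h2, ← ha, map_sum]
  refine Finset.sum_congr rfl fun s _ => ?_
  rw [ker_hc_mul _ _ _ _ (hS s), mul_comm]

/-- the annihilator of a functional -/
def AnnI (Λ : A →ₗ[ℂ] ℂ) : Ideal A where
  carrier := {f | ctr f Λ = 0}
  add_mem' := fun {f g} hf hg => by
    have hf' : ctrL Λ f = 0 := hf
    have hg' : ctrL Λ g = 0 := hg
    change ctrL Λ (f + g) = 0
    rw [map_add, hf', hg', add_zero]
  zero_mem' := by
    change ctrL Λ 0 = 0
    rw [map_zero]
  smul_mem' := fun a f hf => by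
    refine LinearMap.ext fun g => ?_
    have h1 : Λ (f * (a * g)) = 0 := LinearMap.congr_fun (show ctr f Λ = 0 from hf) (a * g)
    change Λ (a * f * g) = 0
    rw [← h1]
    congr 1
    ring

lemma mem_AnnI {Λ : A →ₗ[ℂ] ℂ} {f : A} : f ∈ AnnI Λ ↔ ctr f Λ = 0 := Iff.rfl

/-- the forms which vanish on the range of `L` kill `Λ` -/
lemma sub_mem_AnnI (hp : S5.S_PUL) {k : ℕ} {L : (Fin k → ℂ) →ₗ[ℂ] (Fin 5 → ℂ)} {Λ : A →ₗ[ℂ] ℂ}
    (h : ∀ f : A, f.IsHomogeneous 1 → S5.pull L f = 0 → ctr f Λ = 0)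
    {R : (Fin 5 → ℂ) →ₗ[ℂ] (Fin k → ℂ)} (hR : ∀ w, R (L w) = w) (f : A) :
    f - S5.pull R (S5.pull L f) ∈ AnnI Λ := by
  apply sub_mem
  intro t
  rw [mem_AnnI]
  apply h
  · exact (isHomogeneous_X _ _).sub ((hp 5 k R _).2.1 1 ((hp k 5 L _).2.1 1 (isHomogeneous_X _ _)))
  · rw [map_sub, pull_leftInv hp hR, sub_self]

theorem t_UPB (hp : S5.S_PUL) : S_UPB := by
  intro k L Λ hL h i T hT
  obtain ⟨R, hR⟩ := LinearMap.exists_leftInverse_of_injective L (LinearMap.ker_eq_bot.2 hL)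
  have hRL : ∀ w, R (L w) = w := fun v => LinearMap.congr_fun hR v
  have hann : ∀ f : A, ctr f Λ = ctr (S5.pull R (S5.pull L f)) Λ := by
    intro f
    have h1 := sub_mem_AnnI hp h hRL f
    have h2 : ctrL Λ (f - S5.pull R (S5.pull L f)) = 0 := h1
    rw [map_sub, sub_eq_zero] at h2
    exact h2
  set V := homogeneousSubmodule (Fin k) ℂ i with hV
  have : FiniteDimensional ℂ V := by
    rw [hV]
    exact Module.Finite.iff_fg.2 (homogeneousSubmodule_fg (σ := Fin k) (R := ℂ) i)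
  set θ : MvPolynomial (Fin k) ℂ →ₗ[ℂ] (A →ₗ[ℂ] ℂ) := ctrL Λ ∘ₗ (S5.pull R).toLinearMap with hθ
  have hθ' : ∀ g, θ g = ctr (S5.pull R g) Λ := fun g => rfl
  have hW : W Λ i = V.map θ := by
    apply le_antisymm
    · rintro _ ⟨f, hf, rfl⟩
      refine ⟨S5.pull L f, (hp k 5 L f).2.1 i hf, ?_⟩
      rw [hθ', ← hann]
      rfl
    · rintro _ ⟨g, hg, rfl⟩
      exact ⟨S5.pull R g, (hp 5 k R g).2.1 i hg, rfl⟩
  have hTV : T ≤ V := by
    intro t ht
    obtain ⟨f, hf, -, rfl⟩ := hT t ht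
    exact (hp k 5 L f).2.1 i hf
  have hTk : ∀ t ∈ T, θ t = 0 := by
    intro t ht
    obtain ⟨f, hf, hf0, rfl⟩ := hT t ht
    rw [hθ', ← hann, hf0]
  have h1 := LinearMap.finrank_range_add_finrank_ker (θ.domRestrict V)
  have h2 : LinearMap.range (θ.domRestrict V) = W Λ i := by
    rw [hW, LinearMap.range_domRestrict]
  rw [h2] at h1
  have h3 : finrank ℂ T = finrank ℂ (T.comap V.subtype) :=
    (Submodule.comapSubtypeEquivOfLe hTV).finrank_eq.symm
  have h4 : T.comap V.subtype ≤ LinearMap.ker (θ.domRestrict V) := by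
    intro x hx
    rw [LinearMap.mem_ker]
    exact hTk _ hx
  have h5 := Submodule.finrank_mono h4
  rw [H, h3]
  omega

end Pool.Agent.NOD.S4
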