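import Pool.Agent.NOD.S4

/-!
# Project NOD, section S4, piece LAM
-/

set_option autoImplicit false

namespace Pool.Agent.NOD.S4

open MvPolynomial Module

namespace LAM

theorem hc_hom {k n : ℕ} {f : A} (hf : f.IsHomogeneous k) :
    homogeneousComponent n f = if n = k then f else 0 :=
  homogeneousComponent_of_mem ((mem_homogeneousSubmodule k f).mpr hf)

theorem hc_mul_all {k : ℕ} (n : ℕ) {f : A} (hf : f.IsHomogeneous k) (g : A) :
    homogeneousComponent n (f * g) =
      ∑ i ∈ Finset.range (g.totalDegree + 1),
        if n = k + i then f * homogeneousComponent i g else 0 := by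
  conv_lhs => rw [← sum_homogeneousComponent g, Finset.mul_sum, map_sum]
  refine Finset.sum_congr rfl fun i _ => ?_
  exact hc_hom (hf.mul (homogeneousComponent_isHomogeneous i g))

theorem hc_mul {k m : ℕ} {f : A} (hf : f.IsHomogeneous k) (g : A) :
    homogeneousComponent (k + m) (f * g) = f * homogeneousComponent m g := by
  rw [hc_mul_all _ hf]
  have h1 : ∀ i ∈ Finset.range (g.totalDegree + 1),
      (if k + m = k + i then f * homogeneousComponent i g else 0) =
        if m = i then f * homogeneousComponent m g else 0 := by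
    intro i _
    by_cases h : m = i
    · subst h; simp
    · rw [if_neg h, if_neg (by omega)]
  rw [Finset.sum_congr rfl h1, Finset.sum_ite_eq]
  split_ifs with h
  · rfl
  · rw [homogeneousComponent_eq_zero _ _ (by
      rw [Finset.mem_range] at h; omega), mul_zero]

theorem hc_mul_lt {k n : ℕ} (hn : n < k) {f : A} (hf : f.IsHomogeneous k) (g : A) :
    homogeneousComponent n (f * g) = 0 := by
  rw [hc_mul_all _ hf]
  refine Finset.sum_eq_zero fun i _ => ?_
  rw [if_neg (by omega)]

end LAM

open LAM in
theorem t_LAM : S_LAM := by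
  intro Γ c l n hl hlz hind hR
  have hLam : ∀ g : A, Lam Γ c l (n + 1) g =
      ∑ z ∈ Γ, c z / eval z l * eval z (homogeneousComponent (n + 1) g) := fun g => rfl
  have lin : ∀ f : A, f.IsHomogeneous 1 → ctr f (Lam Γ c l (n + 1)) = 0 →
      ∃ t : ℂ, ∀ z ∈ Γ, eval z f = t * eval z l := by
    intro f hf h0
    obtain ⟨t, ht⟩ := hR.uniq (fun z => c z / eval z l * eval z f) (by
      intro g hg
      have h1 : Lam Γ c l (n + 1) (f * g) = 0 := LinearMap.congr_fun h0 g
      rw [hLam] at h1
      rw [← h1]
      refine Finset.sum_congr rfl fun z _ => ?_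
      have h2 : homogeneousComponent (n + 1) (f * g) = f * g := by
        rw [hc_hom (hf.mul hg), if_pos (by omega)]
      rw [h2, map_mul]
      ring)
    refine ⟨t, fun z hz => ?_⟩
    have h3 := ht z hz
    have h4 := hR.ne z hz
    have h5 := hlz z hz
    field_simp at h3
    rw [h3, mul_comm]
  refine ⟨hl, hlz, hR.nonempty, ?_, ?_, ?_, lin, ?_⟩
  · intro g
    rw [hLam, hLam]
    refine Finset.sum_congr rfl fun z _ => ?_
    rw [hc_hom (homogeneousComponent_isHomogeneous (n + 1) g), if_pos rfl]
  · refine LinearMap.ext fun g => ?_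
    change Lam Γ c l (n + 1) (l * g) = 0
    rw [hLam, add_comm n 1]
    rw [← hR.rel _ (homogeneousComponent_isHomogeneous n g)]
    refine Finset.sum_congr rfl fun z hz => ?_
    rw [hc_mul hl, map_mul]
    have := hlz z hz
    field_simp
  · intro k f hf hv
    refine LinearMap.ext fun g => ?_
    change Lam Γ c l (n + 1) (f * g) = 0
    rw [hLam]
    refine Finset.sum_eq_zero fun z hz => ?_
    rcases lt_or_ge (n + 1) k with h | h
    · rw [hc_mul_lt h hf, map_zero, mul_zero]
    · obtain ⟨m, hm⟩ := Nat.exists_eq_add_of_le h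
      rw [hm, hc_mul hf, map_mul, hv z hz, zero_mul, mul_zero]
  · intro h0
    have hX : ∀ i : Fin 5, ∃ t : ℂ, ∀ z ∈ Γ, z i = t * eval z l := by
      intro i
      obtain ⟨t, ht⟩ := lin (X i) (isHomogeneous_X ℂ i) (by
        rw [h0]
        refine LinearMap.ext fun g => ?_
        rfl)
      refine ⟨t, fun z hz => ?_⟩
      have := ht z hz
      rwa [eval_X] at this
    choose t ht using hX
    obtain ⟨z, hz⟩ := hR.nonempty
    have hone : Γ = {z} := by
      refine Finset.eq_singleton_iff_unique_mem.mpr ⟨hz, fun w hw => ?_⟩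
      by_contra hne
      refine hind z hz w hw (Ne.symm hne) (eval w l / eval z l) ?_
      funext i
      rw [Pi.smul_apply, smul_eq_mul, ht i w hw, ht i z hz]
      have := hlz z hz
      field_simp
    have h1 := hR.rel (l ^ n) (by simpa using hl.pow n)
    rw [hone, Finset.sum_singleton, map_pow] at h1
    rcases mul_eq_zero.mp h1 with h2 | h2
    · exact hR.ne z hz h2
    · exact hlz z hz (eq_zero_of_pow_eq_zero h2)

end Pool.Agent.NOD.S4
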