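import Pool.Agent.NOD.S4

/-!
# Project NOD, section S4, piece LEC: the counting argument in the proof of COP
-/

set_option autoImplicit false

namespace Pool.Agent.NOD.S4

open MvPolynomial Module

noncomputable section

/-- the linear functional of a polynomial (its linear part) -/
def LEC_lin {k : ℕ} (f : MvPolynomial (Fin k) ℂ) : (Fin k → ℂ) →ₗ[ℂ] ℂ :=
  ∑ j, coeff (Finsupp.single j 1) f • LinearMap.proj j

theorem LEC_eq_sum {k : ℕ} {f : MvPolynomial (Fin k) ℂ} (h : f.IsHomogeneous 1) :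
    f = ∑ j, C (coeff (Finsupp.single j 1) f) * X j := by
  ext m
  rw [coeff_sum]
  simp only [coeff_C_mul, coeff_X]
  by_cases hm : m.degree = 1
  · have hm' : m.sum (fun _ e => e) = 1 := by
      rw [← hm]; rfl
    obtain ⟨j, hj⟩ := (Finsupp.sum_eq_one_iff m).1 hm'
    subst hj
    rw [Finset.sum_eq_single j]
    · simp
    · intro b _ hb
      rw [if_neg, mul_zero]
      intro h2
      exact hb (Finsupp.single_left_injective one_ne_zero h2)
    · simp
  · rw [h.coeff_eq_zero hm, Finset.sum_eq_zero]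
    intro j _
    rw [if_neg, mul_zero]
    rintro rfl
    simp at hm

theorem LEC_lin_eval {k : ℕ} (f : MvPolynomial (Fin k) ℂ) (hf : f.IsHomogeneous 1)
    (v : Fin k → ℂ) : LEC_lin f v = eval v f := by
  conv_rhs => rw [LEC_eq_sum hf]
  simp [LEC_lin]

theorem LEC_const {k : ℕ} {f : MvPolynomial (Fin k) ℂ} (h : f.IsHomogeneous 0) : ∃ c : ℂ, f = C c :=
  ⟨coeff 0 f, totalDegree_eq_zero_iff_eq_C.mp
    ((totalDegree_zero_iff_isHomogeneous (p := f)).mpr h)⟩

/-- the common kernel of two linearly independent linear forms on `ℂ⁴` -/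
theorem LEC_ker (l p : MvPolynomial (Fin 4) ℂ) (hl : l.IsHomogeneous 1) (hp : p.IsHomogeneous 1)
    (h : LinearIndependent ℂ ![l, p]) : ∃ L2 : (Fin 2 → ℂ) →ₗ[ℂ] (Fin 4 → ℂ),
      Function.Injective L2 ∧ (∀ w, eval (L2 w) l = 0) ∧ (∀ w, eval (L2 w) p = 0) ∧
      ∀ v, eval v l = 0 → eval v p = 0 → ∃ w, L2 w = v := by
  set Φ : (Fin 4 → ℂ) →ₗ[ℂ] ℂ × ℂ := (LEC_lin l).prod (LEC_lin p) with hΦ
  have hran : LinearMap.range Φ = ⊤ := by
    by_contra hne
    obtain ⟨g, hg, hle⟩ := Submodule.exists_le_ker_of_lt_top _ (lt_top_iff_ne_top.mpr hne)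
    have h1 : ∀ v, g (1, 0) * eval v l + g (0, 1) * eval v p = 0 := by
      intro v
      have h2 : g (Φ v) = 0 := hle (LinearMap.mem_range_self Φ v)
      have h3 : Φ v = eval v l • ((1, 0) : ℂ × ℂ) + eval v p • ((0, 1) : ℂ × ℂ) := by
        rw [← LEC_lin_eval l hl, ← LEC_lin_eval p hp]
        ext <;> simp [hΦ]
      rw [h3, map_add, map_smul, map_smul, smul_eq_mul, smul_eq_mul] at h2
      rw [mul_comm (g (1, 0)), mul_comm (g (0, 1))]
      exact h2
    have h4 : g (1, 0) • l + g (0, 1) • p = 0 := by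
      apply MvPolynomial.funext
      intro v
      rw [map_add, smul_eval, smul_eval, map_zero]
      exact h1 v
    obtain ⟨h5, h6⟩ := (LinearIndependent.pair_iff.mp h) _ _ h4
    apply hg
    refine LinearMap.ext fun x => ?_
    have h7 : x = x.1 • ((1, 0) : ℂ × ℂ) + x.2 • ((0, 1) : ℂ × ℂ) := by
      ext <;> simp
    rw [h7, map_add, map_smul, map_smul, h5, h6]
    simp
  have hfr : finrank ℂ (LinearMap.ker Φ) = 2 := by
    have h1 := LinearMap.finrank_range_add_finrank_ker Φ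
    rw [hran, finrank_top, finrank_prod, finrank_self, finrank_fintype_fun_eq_card,
      Fintype.card_fin] at h1
    omega
  let E : (Fin 2 → ℂ) ≃ₗ[ℂ] LinearMap.ker Φ := LinearEquiv.ofFinrankEq _ _ (by
    rw [hfr, finrank_fintype_fun_eq_card, Fintype.card_fin])
  have hE : ∀ w, Φ (E w : Fin 4 → ℂ) = 0 := fun w => (E w).2
  refine ⟨(LinearMap.ker Φ).subtype ∘ₗ E.toLinearMap, ?_, ?_, ?_, ?_⟩
  · intro x y hxy
    exact E.injective (Subtype.ext hxy)
  · intro w
    rw [← LEC_lin_eval l hl]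
    exact congrArg Prod.fst (hE w)
  · intro w
    rw [← LEC_lin_eval p hp]
    exact congrArg Prod.snd (hE w)
  · intro v hv1 hv2
    have h1 : v ∈ LinearMap.ker Φ := by
      rw [LinearMap.mem_ker, hΦ]
      change (LEC_lin l v, LEC_lin p v) = 0
      rw [LEC_lin_eval l hl, LEC_lin_eval p hp, hv1, hv2]
      rfl
    refine ⟨E.symm ⟨v, h1⟩, ?_⟩
    change ((E (E.symm ⟨v, h1⟩) : LinearMap.ker Φ) : Fin 4 → ℂ) = v
    rw [LinearEquiv.apply_symm_apply]

theorem LEC_pull (hp : S5.S_PUL) {i j k : ℕ} (L : (Fin j → ℂ) →ₗ[ℂ] (Fin k → ℂ))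
    (L2 : (Fin i → ℂ) →ₗ[ℂ] (Fin j → ℂ)) (f : MvPolynomial (Fin k) ℂ) :
    S5.pull (L ∘ₗ L2) f = S5.pull L2 (S5.pull L f) := by
  apply MvPolynomial.funext
  intro v
  rw [(hp _ _ (L ∘ₗ L2) f).1, (hp _ _ L2 _).1, (hp _ _ L f).1]
  rfl

theorem LEC_step (hPUL : S5.S_PUL) (hKER : S_KER) (hSUR : S_SUR) (hUPB : S_UPB) (hD : S_DIM)
    (i n : ℕ) (L : (Fin 4 → ℂ) →ₗ[ℂ] (Fin 5 → ℂ)) (Γ : Finset (Fin 5 → ℂ)) (l pt : A)
    (Λ : A →ₗ[ℂ] ℂ) (p p' f : MvPolynomial (Fin 4) ℂ) (hL : Function.Injective L)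
    (hF : Fct Γ l n Λ) (hr : ∀ z ∈ Γ, ∃ w, L w = z) (hpt : pt.IsHomogeneous 1)
    (hptp : S5.pull L pt = p) (hp' : p'.IsHomogeneous 1)
    (hpp : ∀ w ∈ pre L Γ, eval w (p * p') = 0)
    (hi : LinearIndependent ℂ ![S5.pull L l, p']) (hf : f.IsHomogeneous i) (hnd : ¬ p' ∣ f)
    (hv : ∀ w ∈ pre L Γ, eval w p ≠ 0 → eval w f = 0)
    (hmin : ∀ j < i, ∀ b : MvPolynomial (Fin 4) ℂ, b.IsHomogeneous j →
      (∀ w ∈ pre L Γ, eval w p ≠ 0 → eval w b = 0) → p' ∣ b) : H (ctr pt Λ) i ≤ i := by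
  have hl' : (S5.pull L l).IsHomogeneous 1 := (hPUL _ _ L l).2.1 1 hF.hom
  obtain ⟨L2, hL2, h2l, h2p, h2r⟩ := LEC_ker (S5.pull L l) p' hl' hp' hi
  have hS : ∀ s, ((![S5.pull L l, p'] : Fin 2 → MvPolynomial (Fin 4) ℂ) s).IsHomogeneous 1 := by
    intro s
    fin_cases s
    · exact hl'
    · exact hp'
  have hSr : ∀ v, (∀ s, eval v ((![S5.pull L l, p'] : Fin 2 → MvPolynomial (Fin 4) ℂ) s) = 0) →
      ∃ w, L2 w = v := fun v hv' => h2r v (hv' 0) (hv' 1)
  have hker := hKER 2 4 2 L2 ![S5.pull L l, p'] hL2 hS hSr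
  -- (0)
  have h0 : ∀ h : A, h.IsHomogeneous 1 → S5.pull (L ∘ₗ L2) h = 0 → ctr h (ctr pt Λ) = 0 := by
    intro h hh hz
    rw [LEC_pull hPUL] at hz
    obtain ⟨a, ha, hab⟩ := hker 0 (S5.pull L h) ((hPUL _ _ L h).2.1 1 hh) hz
    rw [Fin.sum_univ_two] at hab
    obtain ⟨a0, ha0⟩ := LEC_const (ha 0)
    have hab' : S5.pull L h = S5.pull L l * C a0 + p' * a 1 := by rw [hab, ha0]; rfl
    -- `pt * h - a0 * l * pt` vanishes on `Γ`
    have hD0 : ∀ z ∈ Γ, eval z (pt * h - l * (C a0 * pt)) = 0 := by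
      intro z hz
      obtain ⟨w, rfl⟩ := hr z hz
      have e1 : eval (L w) h = eval (L w) l * a0 + eval w p' * eval w (a 1) := by
        rw [← (hPUL _ _ L h).1, hab', map_add, map_mul, map_mul, eval_C, (hPUL _ _ L l).1]
      have e2 : eval (L w) pt = eval w p := by rw [← (hPUL _ _ L pt).1, hptp]
      have e3 : eval w p * eval w p' = 0 := by
        rw [← map_mul]
        exact hpp w hz
      rw [map_sub, map_mul, map_mul, map_mul, eval_C, e1, e2]
      linear_combination eval w (a 1) * e3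
    have hDh : (pt * h - l * (C a0 * pt)).IsHomogeneous 2 := by
      refine IsHomogeneous.sub (hpt.mul hh) ?_
      exact hF.hom.mul ((isHomogeneous_C _ a0).mul hpt)
    have h1 := hF.van 2 _ hDh hD0
    refine LinearMap.ext fun g => ?_
    change Λ (pt * (h * g)) = 0
    have h2 : Λ ((pt * h - l * (C a0 * pt)) * g) = 0 := LinearMap.congr_fun h1 g
    have h3 : Λ (l * (C a0 * pt * g)) = 0 := LinearMap.congr_fun hF.kill (C a0 * pt * g)
    have h4 : pt * (h * g) = (pt * h - l * (C a0 * pt)) * g + l * (C a0 * pt * g) := by ring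
    rw [h4, map_add, h2, h3, add_zero]
  -- (1)
  have h1 : S5.pull L2 f ≠ 0 := by
    intro hz
    rcases Nat.eq_zero_or_pos i with hi0 | hi0
    · subst hi0
      obtain ⟨c, rfl⟩ := LEC_const hf
      have h2 : S5.pull L2 (C c) = C c := by
        rw [← algebraMap_eq, ← algebraMap_eq]
        exact (S5.pull L2).commutes c
      rw [h2, C_eq_zero] at hz
      apply hnd
      rw [hz, map_zero]
      exact dvd_zero _
    · obtain ⟨j, rfl⟩ : ∃ j, i = j + 1 := ⟨i - 1, by omega⟩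
      obtain ⟨a, ha, hab⟩ := hker j f hf hz
      rw [Fin.sum_univ_two] at hab
      have hab' : f = S5.pull L l * a 0 + p' * a 1 := hab
      have hdb := hmin j (by omega) (a 0) (ha 0) fun w hw hwp => by
        have h2 := hv w hw hwp
        have h3 : eval w p' = 0 := by
          have := hpp w hw
          rw [map_mul] at this
          exact (mul_eq_zero.mp this).resolve_left hwp
        rw [hab', map_add, map_mul, map_mul, h3, zero_mul, add_zero, (hPUL _ _ L l).1] at h2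
        exact (mul_eq_zero.mp h2).resolve_left (hF.ne (L w) hw)
      apply hnd
      rw [hab']
      exact dvd_add (hdb.mul_left _) (Dvd.intro _ rfl)
  -- (2)
  obtain ⟨g, hg, hgf⟩ := hSUR 4 5 L hL i f hf
  have h2 : ctr g (ctr pt Λ) = 0 := by
    have h3 : ∀ z ∈ Γ, eval z (pt * g) = 0 := by
      intro z hz
      obtain ⟨w, rfl⟩ := hr z hz
      have e1 : eval (L w) g = eval w f := by rw [← (hPUL _ _ L g).1, hgf]
      have e2 : eval (L w) pt = eval w p := by rw [← (hPUL _ _ L pt).1, hptp]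
      rw [map_mul, e1, e2]
      by_cases h4 : eval w p = 0
      · rw [h4, zero_mul]
      · rw [hv w hz h4, mul_zero]
    have h4 := hF.van _ _ (hpt.mul hg) h3
    refine LinearMap.ext fun x => ?_
    change Λ (pt * (g * x)) = 0
    rw [← mul_assoc]
    exact LinearMap.congr_fun h4 x
  have h3 := hUPB 2 (L ∘ₗ L2) (ctr pt Λ) (hL.comp hL2) h0 i (Submodule.span ℂ {S5.pull L2 f})
    (by
      intro t ht
      obtain ⟨c, rfl⟩ := Submodule.mem_span_singleton.mp ht
      refine ⟨c • g, (homogeneousSubmodule (Fin 5) ℂ i).smul_mem c hg, ?_, ?_⟩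
      · change ctrL (ctr pt Λ) (c • g) = 0
        rw [map_smul]
        change c • ctr g (ctr pt Λ) = 0
        rw [h2, smul_zero]
      · rw [map_smul, LEC_pull hPUL, hgf])
  rw [finrank_span_singleton h1, hD 1 i, Nat.choose_one_right] at h3
  omega

theorem t_LEC (hPUL : S5.S_PUL) (hKER : S_KER) (hSUR : S_SUR) (hUPB : S_UPB) (hD : S_DIM) :
    S_LEC := by
  intro i₀ n L Γ l pt Λ p p' f hL hF hr hpt hptp hp hp' hpp hi hf hnd hv
  classical
  have hex : ∃ i, ∃ f : MvPolynomial (Fin 4) ℂ, f.IsHomogeneous i ∧ ¬ p' ∣ f ∧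
      ∀ w ∈ pre L Γ, eval w p ≠ 0 → eval w f = 0 := ⟨i₀, f, hf, hnd, hv⟩
  obtain ⟨f', hf', hnd', hv'⟩ := Nat.find_spec hex
  refine ⟨Nat.find hex, Nat.find_min' hex ⟨f, hf, hnd, hv⟩, ?_⟩
  refine LEC_step hPUL hKER hSUR hUPB hD _ n L Γ l pt Λ p p' f' hL hF hr hpt hptp hp' hpp hi hf'
    hnd' hv' fun j hj b hb hbv => ?_
  by_contra hc
  exact Nat.find_min hex hj ⟨b, hb, hc, hbv⟩

end

end Pool.Agent.NOD.S4
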