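import Pool.Agent.NOD.S4

/-!
Piece LIN0: a linear form which does not vanish at finitely many points.
-/

set_option autoImplicit false

namespace Pool.Agent.NOD.S4

open MvPolynomial Module

theorem t_LIN0 : S_LIN0 := by
  classical
  intro zs hz
  obtain ⟨f, hf⟩ := Module.exists_dual_forall_apply_ne_zero (K := ℂ)
    (fun z : zs => (z : Fin 5 → ℂ)) fun z => hz z z.2
  have hfz : ∀ z : Fin 5 → ℂ, f z = ∑ i, f (Pi.single i 1) * z i := by
    intro z
    have h1 : z = ∑ i, z i • (Pi.single i (1 : ℂ) : Fin 5 → ℂ) := by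
      funext j
      simp [Finset.sum_apply, Pi.single_apply]
    conv_lhs => rw [h1]
    rw [map_sum]
    refine Finset.sum_congr rfl fun i _ => ?_
    rw [map_smul, smul_eq_mul, mul_comm]
  refine ⟨∑ i, C (f (Pi.single i 1)) * X i, ?_, fun z hzz => ?_⟩
  · exact IsHomogeneous.sum _ _ _ fun i _ => isHomogeneous_C_mul_X _ _
  · have h2 : eval z (∑ i, C (f (Pi.single i 1)) * X i : A) = f z := by
      rw [hfz, map_sum]
      exact Finset.sum_congr rfl fun i _ => by rw [map_mul, eval_C, eval_X]
    rw [h2]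
    exact hf ⟨z, hzz⟩

end Pool.Agent.NOD.S4
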