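import Pool.Agent.NOD.S4

/-!
Piece MIN: a relation of minimal support.
-/

set_option autoImplicit false

namespace Pool.Agent.NOD.S4

open MvPolynomial Module

theorem t_MIN : S_MIN := by
  classical
  intro zs n hrel
  obtain ⟨c₀, ⟨z₀, hz₀, hcz₀⟩, hr₀⟩ := hrel
  -- the candidates: subsets with a relation supported exactly there
  obtain ⟨Ps, hPs⟩ : ∃ Ps : Finset (Finset (Fin 5 → ℂ)), Ps = zs.powerset.filter fun Γ =>
      Γ.Nonempty ∧ ∃ c : (Fin 5 → ℂ) → ℂ, (∀ z ∈ Γ, c z ≠ 0) ∧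
        ∀ g : A, g.IsHomogeneous n → ∑ z ∈ Γ, c z * eval z g = 0 := ⟨_, rfl⟩
  -- every relation on `zs` which is not zero gives a candidate
  have key : ∀ c : (Fin 5 → ℂ) → ℂ, (∃ z ∈ zs, c z ≠ 0) →
      (∀ g : A, g.IsHomogeneous n → ∑ z ∈ zs, c z * eval z g = 0) →
      zs.filter (fun z => c z ≠ 0) ∈ Ps := by
    intro c hc hr
    rw [hPs, Finset.mem_filter, Finset.mem_powerset]
    refine ⟨Finset.filter_subset _ _, ?_, c, fun z hz => (Finset.mem_filter.1 hz).2, ?_⟩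
    · obtain ⟨z, hz, hcz⟩ := hc
      exact ⟨z, Finset.mem_filter.2 ⟨hz, hcz⟩⟩
    · intro g hg
      refine Eq.trans ?_ (hr g hg)
      rw [Finset.sum_filter]
      refine Finset.sum_congr rfl fun z _ => ?_
      split_ifs with h
      · rfl
      · rw [not_not.1 h, zero_mul]
  have hne : Ps.Nonempty := ⟨_, key c₀ ⟨z₀, hz₀, hcz₀⟩ hr₀⟩
  obtain ⟨Γ, hΓ, hmin⟩ := Finset.exists_min_image Ps (fun Γ => Γ.card) hne
  have hΓ' := hΓ
  rw [hPs, Finset.mem_filter, Finset.mem_powerset] at hΓ'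
  obtain ⟨hsub, hnon, c, hc, hr⟩ := hΓ'
  refine ⟨Γ, hsub, c, hnon, hc, hr, fun c' hc' => ?_⟩
  obtain ⟨w, hw⟩ := hnon
  refine ⟨c' w / c w, ?_⟩
  by_contra hcon
  push Not at hcon
  obtain ⟨z, hz, hzne⟩ := hcon
  -- the relation `c' - t c`, extended by zero
  obtain ⟨d, hd⟩ : ∃ d : (Fin 5 → ℂ) → ℂ,
      d = fun z => if z ∈ Γ then c' z - c' w / c w * c z else 0 := ⟨_, rfl⟩
  have hdr : ∀ g : A, g.IsHomogeneous n → ∑ z ∈ zs, d z * eval z g = 0 := by
    intro g hg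
    have e1 : ∑ z ∈ zs, d z * eval z g = ∑ z ∈ Γ, d z * eval z g := by
      symm
      refine Finset.sum_subset hsub fun z _ hz => ?_
      rw [hd]
      simp only [if_neg hz, zero_mul]
    have e2 : ∑ z ∈ Γ, d z * eval z g =
        ∑ z ∈ Γ, c' z * eval z g - c' w / c w * ∑ z ∈ Γ, c z * eval z g := by
      rw [Finset.mul_sum, ← Finset.sum_sub_distrib]
      refine Finset.sum_congr rfl fun z hz => ?_
      rw [hd]
      simp only [if_pos hz]
      ring
    rw [e1, e2, hc' g hg, hr g hg, mul_zero, sub_zero]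
  have hdz : d z ≠ 0 := by
    rw [hd]
    simp only [if_pos hz]
    exact sub_ne_zero.2 hzne
  have h1 := hmin _ (key d ⟨z, hsub hz, hdz⟩ hdr)
  have h2 : zs.filter (fun z => d z ≠ 0) ⊂ Γ := by
    rw [Finset.ssubset_iff_of_subset]
    · refine ⟨w, hw, fun h => (Finset.mem_filter.1 h).2 ?_⟩
      rw [hd]
      simp only [if_pos hw]
      rw [div_mul_cancel₀ _ (hc w hw), sub_self]
    · intro u hu
      by_contra hu'
      apply (Finset.mem_filter.1 hu).2
      rw [hd]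
      simp only [if_neg hu']
  exact absurd (Finset.card_lt_card h2) (not_lt.2 h1)

end Pool.Agent.NOD.S4
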