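import Pool.Agent.NOD.S4

/-!
# Project NOD, section S4, piece PLF
-/

set_option autoImplicit false

namespace Pool.Agent.NOD.S4

open MvPolynomial Module

namespace PLF

/-- a space of dimension at most two is spanned by two elements -/
theorem two_gen {V : Type*} [AddCommGroup V] [Module ℂ V] [FiniteDimensional ℂ V]
    (h : finrank ℂ V ≤ 2) : ∃ s : Fin 2 → V, ∀ v : V, ∃ c : Fin 2 → ℂ, v = ∑ t, c t • s t := by
  classical
  let b := Module.finBasis ℂ V
  let s : Fin 2 → V := fun t => if h : (t : ℕ) < finrank ℂ V then b ⟨t, h⟩ else 0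
  refine ⟨s, fun v => ?_⟩
  have h1 : Submodule.span ℂ (Set.range b) ≤ Submodule.span ℂ (Set.range s) := by
    rw [Submodule.span_le]
    rintro _ ⟨i, rfl⟩
    apply Submodule.subset_span
    refine ⟨⟨i, by omega⟩, ?_⟩
    have h2 : ((⟨(i : ℕ), by omega⟩ : Fin 2) : ℕ) < finrank ℂ V := i.2
    exact dif_pos h2
  rw [b.span_eq] at h1
  have h2 : v ∈ Submodule.span ℂ (Set.range s) := h1 trivial
  rw [Submodule.mem_span_range_iff_exists_fun] at h2
  obtain ⟨c, hc⟩ := h2
  exact ⟨c, hc.symm⟩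

theorem fdVan {k : ℕ} (G : Set (Fin k → ℂ)) (i : ℕ) : FiniteDimensional ℂ (Van G i) := by
  have : Van G i ≤ restrictTotalDegree (Fin k) ℂ i := by
    intro f hf
    rw [mem_restrictTotalDegree]
    exact IsHomogeneous.totalDegree_le hf.1
  exact Submodule.finiteDimensional_of_le this

end PLF

theorem t_PLF (hG : S_GRD) (hE : S_EUL) (hp : S5.S_PUL) : S_PLF := by
  classical
  intro e L F zs Γ he hF hs hΓ hL h1 h2
  have := PLF.fdVan (pre L Γ) (e + 1)
  obtain ⟨s, hspan⟩ := PLF.two_gen h2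
  have hspan' : ∀ f ∈ Van (pre L Γ) (e + 1), ∃ c : Fin 2 → ℂ,
      f = ∑ t, C (c t) * (s t : MvPolynomial (Fin 3) ℂ) := by
    intro f hf
    obtain ⟨c, hc⟩ := hspan ⟨f, hf⟩
    refine ⟨c, ?_⟩
    have h3 := congrArg Subtype.val hc
    rw [Submodule.coe_sum] at h3
    rw [show f = ((⟨f, hf⟩ : Van (pre L Γ) (e + 1)) : MvPolynomial (Fin 3) ℂ) from rfl, h3]
    refine Finset.sum_congr rfl fun t _ => ?_
    rw [Submodule.coe_smul, smul_eq_C_mul]
  obtain ⟨hE1, p, hp1, hp2⟩ := hE 3 (e + 1) L F zs Γ hF hs hΓ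
  choose c hc using fun l => hspan' (p l) (hp1 l)
  let α : Fin 2 → MvPolynomial (Fin 3) ℂ := fun t => ∑ l, X l * C (c l t)
  have hα : ∀ t, (α t).IsHomogeneous 1 := by
    intro t
    show (∑ l, X l * C (c l t) : MvPolynomial (Fin 3) ℂ) ∈ homogeneousSubmodule (Fin 3) ℂ 1
    refine Submodule.sum_mem _ fun l _ => ?_
    have := (isHomogeneous_X ℂ l).mul (isHomogeneous_C (Fin 3) (c l t))
    rwa [add_zero] at this
  have hsum : C (((e + 1) + 1 : ℕ) : ℂ) * S5.pull L F =
      ∑ t, α t * (s t : MvPolynomial (Fin 3) ℂ) := by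
    rw [hp2]
    have h3 : ∀ l, X l * p l = ∑ t, X l * C (c l t) * (s t : MvPolynomial (Fin 3) ℂ) := by
      intro l
      conv_lhs => rw [hc l]
      rw [Finset.mul_sum]
      exact Finset.sum_congr rfl fun t _ => by ring
    rw [Finset.sum_congr rfl fun l _ => h3 l, Finset.sum_comm]
    refine Finset.sum_congr rfl fun t _ => ?_
    rw [Finset.sum_mul]
  have hzero : ∀ t, α t = 0 := by
    intro t
    refine h1 _ ⟨hα t, fun w hw => ?_⟩
    have hne : (((e + 1) + 1 : ℕ) : ℂ) ≠ 0 := by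
      exact_mod_cast Nat.succ_ne_zero (e + 1)
    refine hG 2 L F zs w (fun t => (s t : MvPolynomial (Fin 3) ℂ)) α _ hL hs (hΓ hw) ?_ hne ?_
      hsum t
    · intro t
      exact (s t).2.2 w hw
    · intro i
      obtain ⟨b, hb⟩ := hspan' _ (hE1 i)
      exact ⟨fun t => C (b t), hb⟩
  have hpull : S5.pull L F = 0 := by
    have h3 : C (((e + 1) + 1 : ℕ) : ℂ) * S5.pull L F = 0 := by
      rw [hsum]
      exact Finset.sum_eq_zero fun t _ => by rw [hzero t, zero_mul]
    rcases mul_eq_zero.mp h3 with h4 | h4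
    · rw [C_eq_zero] at h4
      exact absurd h4 (by exact_mod_cast Nat.succ_ne_zero (e + 1))
    · exact h4
  refine ⟨L, hL, fun v => ?_⟩
  rw [← (hp 3 5 L F).1, hpull, map_zero]

end Pool.Agent.NOD.S4
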