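import Pool.Agent.NOD.S4

/-!
# Project NOD, section S4, piece PLV (the plane case)
-/

set_option autoImplicit false

namespace Pool.Agent.NOD.S4

open MvPolynomial Module

namespace PLV

theorem lin_form {k : ℕ} {f : MvPolynomial (Fin k) ℂ} (hf : f.IsHomogeneous 1) :
    ∃ φ : (Fin k → ℂ) →ₗ[ℂ] ℂ, ∀ v, φ v = eval v f := by
  have h : f ∈ homogeneousSubmodule (Fin k) ℂ 1 := hf
  rw [homogeneousSubmodule_one_eq_span_X, Submodule.mem_span_range_iff_exists_fun] at h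
  obtain ⟨c, rfl⟩ := h
  refine ⟨∑ i, c i • LinearMap.proj i, fun v => ?_⟩
  simp [smul_eval]

theorem deg_zero {k : ℕ} {f : MvPolynomial (Fin k) ℂ} (hf : f.IsHomogeneous 0) :
    ∃ t : ℂ, f = C t := by
  refine ⟨coeff 0 f, ?_⟩
  exact (totalDegree_eq_zero_iff_eq_C.mp (Nat.le_zero.mp hf.totalDegree_le))

theorem ctr_add (f g : A) (Λ : A →ₗ[ℂ] ℂ) : ctr (f + g) Λ = ctr f Λ + ctr g Λ :=
  map_add (ctrL Λ) f g

theorem ctr_Cmul (t : ℂ) (f : A) (Λ : A →ₗ[ℂ] ℂ) : ctr (C t * f) Λ = t • ctr f Λ := by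
  rw [← smul_eq_C_mul]
  exact map_smul (ctrL Λ) t f

theorem ctr_smul (t : ℂ) (f : A) (Λ : A →ₗ[ℂ] ℂ) : ctr (t • f) Λ = t • ctr f Λ :=
  map_smul (ctrL Λ) t f

end PLV

theorem t_PLV (hK : S_KER) (hS : S_SUR) (hU : S_UPB) (hD : S_DIM) (hp : S5.S_PUL) : S_PLV := by
  classical
  intro e n L Γ l Λ hL hF hΓ hlow htop
  have hev : ∀ {m n : ℕ} (L : (Fin m → ℂ) →ₗ[ℂ] (Fin n → ℂ)) (f : MvPolynomial (Fin n) ℂ) v,
      eval v (S5.pull L f) = eval (L v) f := fun L f => (hp _ _ L f).1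
  have hhom : ∀ {m n : ℕ} (L : (Fin m → ℂ) →ₗ[ℂ] (Fin n → ℂ)) (f : MvPolynomial (Fin n) ℂ) k,
      f.IsHomogeneous k → (S5.pull L f).IsHomogeneous k := fun L f => (hp _ _ L f).2.1
  set l' := S5.pull L l with hl'
  have hl'h : l'.IsHomogeneous 1 := hhom L l 1 hF.hom
  have hl'ne : ∀ w ∈ pre L Γ, eval w l' ≠ 0 := by
    intro w hw
    rw [hl', hev]
    exact hF.ne _ hw
  obtain ⟨φ, hφ⟩ := PLV.lin_form hl'h
  obtain ⟨z₀, hz₀⟩ := hF.nonempty
  obtain ⟨w₀, hw₀⟩ := hΓ z₀ hz₀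
  have hφ0 : φ ≠ 0 := by
    intro h
    have h1 := hφ w₀
    rw [h, LinearMap.zero_apply] at h1
    exact hl'ne w₀ (by show L w₀ ∈ Γ; rwa [hw₀]) h1.symm
  have hker : finrank ℂ (LinearMap.ker φ) = 2 := by
    have h1 := LinearMap.finrank_range_add_finrank_ker φ
    have h2 : LinearMap.range φ = ⊤ := LinearMap.range_eq_top.mpr
      (LinearMap.surjective hφ0)
    rw [h2, finrank_top, Module.finrank_self, Module.finrank_fin_fun] at h1
    omega
  let bas := (finBasisOfFinrankEq ℂ (LinearMap.ker φ) hker).equivFun.symm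
  let L2 : (Fin 2 → ℂ) →ₗ[ℂ] (Fin 3 → ℂ) := (LinearMap.ker φ).subtype ∘ₗ bas.toLinearMap
  have hL2 : Function.Injective L2 := by
    intro x y hxy
    exact bas.injective (Subtype.ext hxy)
  have hL2r : ∀ v, (∀ s : Fin 1, eval v ((fun _ : Fin 1 => l') s) = 0) → ∃ w, L2 w = v := by
    intro v hv
    have h1 : v ∈ LinearMap.ker φ := by
      rw [LinearMap.mem_ker, hφ]
      exact hv 0
    refine ⟨bas.symm ⟨v, h1⟩, ?_⟩
    show ((bas (bas.symm ⟨v, h1⟩) : LinearMap.ker φ) : Fin 3 → ℂ) = v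
    rw [LinearEquiv.apply_symm_apply]
  have hdiv : ∀ (i : ℕ) (f : MvPolynomial (Fin 3) ℂ), f.IsHomogeneous (i + 1) →
      S5.pull L2 f = 0 → ∃ a : MvPolynomial (Fin 3) ℂ, a.IsHomogeneous i ∧ f = l' * a := by
    intro i f hf h0
    obtain ⟨a, ha, hfa⟩ := hK 2 3 1 L2 (fun _ => l') hL2 (fun _ => hl'h) hL2r i f hf h0
    refine ⟨a 0, ha 0, ?_⟩
    rw [hfa]
    simp
  have hcomp : ∀ f : A, S5.pull (L ∘ₗ L2) f = S5.pull L2 (S5.pull L f) := by
    intro f
    apply MvPolynomial.funext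
    intro v
    rw [hev, hev, hev]
    rfl
  -- forms vanishing on `Γ`
  have hvan : ∀ (k : ℕ) (g : A), g.IsHomogeneous k → (∀ w ∈ pre L Γ, eval w (S5.pull L g) = 0) →
      ctr g Λ = 0 := by
    intro k g hg h
    refine hF.van k g hg fun z hz => ?_
    obtain ⟨w, hw⟩ := hΓ z hz
    rw [← hw, ← hev]
    exact h w (by show L w ∈ Γ; rwa [hw])
  -- (0)
  have h0 : ∀ f : A, f.IsHomogeneous 1 → S5.pull (L ∘ₗ L2) f = 0 → ctr f Λ = 0 := by
    intro f hf hf0
    rw [hcomp] at hf0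
    obtain ⟨a, ha, hfa⟩ := hdiv 0 _ (hhom L f 1 hf) hf0
    obtain ⟨t, rfl⟩ := PLV.deg_zero ha
    have h1 : ctr (f + C (-t) * l) Λ = 0 := by
      refine hvan 1 _ (hf.add ?_) ?_
      · have := (isHomogeneous_C (Fin 5) (-t)).mul hF.hom
        rwa [zero_add] at this
      · intro w _
        rw [map_add, map_mul, hfa, ← hl']
        have h2 : S5.pull L (C (-t)) = C (-t) := by
          rw [S5.pull, algHom_C]
          rfl
        rw [h2]
        simp only [map_add, map_mul, eval_C]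
        ring
    rw [PLV.ctr_add, PLV.ctr_Cmul, hF.kill, smul_zero, add_zero] at h1
    exact h1
  have hinj : Function.Injective (L ∘ₗ L2) := hL.comp hL2
  have hdim : ∀ i, finrank ℂ (homogeneousSubmodule (Fin 2) ℂ i) = i + 1 := by
    intro i
    rw [hD 1 i, Nat.choose_one_right]
  -- lifting
  have hlift : ∀ (i : ℕ) (f : MvPolynomial (Fin 3) ℂ), f ∈ Van (pre L Γ) i →
      ∃ g : A, g.IsHomogeneous i ∧ ctr g Λ = 0 ∧ S5.pull (L ∘ₗ L2) g = S5.pull L2 f := by
    intro i f hf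
    obtain ⟨g, hg, hgf⟩ := hS 3 5 L hL i f hf.1
    refine ⟨g, hg, hvan i g hg ?_, ?_⟩
    · intro w hw
      rw [hgf]
      exact hf.2 w hw
    · rw [hcomp, hgf]
  have h1 : ∀ i ≤ e, ∀ f ∈ Van (pre L Γ) i, f = 0 := by
    intro i
    induction i using Nat.strong_induction_on with
    | _ i ih =>
      intro hi f hf
      by_contra hne
      by_cases hz : S5.pull L2 f = 0
      · rcases i with _ | j
        · obtain ⟨t, rfl⟩ := PLV.deg_zero hf.1
          have h2 : S5.pull L2 (C t) = C t := by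
            rw [S5.pull, algHom_C]
            rfl
          rw [h2] at hz
          rw [C_eq_zero] at hz
          apply hne
          rw [hz, C_0]
        · obtain ⟨a, ha, rfl⟩ := hdiv j f hf.1 hz
          have ha0 : a = 0 := by
            refine ih j (Nat.lt_succ_self j) (by omega) a ⟨ha, fun w hw => ?_⟩
            have h3 := hf.2 w hw
            rw [map_mul] at h3
            exact (mul_eq_zero.mp h3).resolve_left (hl'ne w hw)
          apply hne
          rw [ha0, mul_zero]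
      · have hT := hU 2 (L ∘ₗ L2) Λ hinj h0 i (Submodule.span ℂ {S5.pull L2 f}) (by
          intro t ht
          rw [Submodule.mem_span_singleton] at ht
          obtain ⟨c, rfl⟩ := ht
          obtain ⟨g, hg1, hg2, hg3⟩ := hlift i f hf
          refine ⟨c • g, (homogeneousSubmodule (Fin 5) ℂ i).smul_mem c hg1, ?_, ?_⟩
          · rw [PLV.ctr_smul, hg2, smul_zero]
          · rw [map_smul, hg3])
        rw [finrank_span_singleton hz, hdim] at hT
        have := hlow i hi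
        omega
  refine ⟨h1, ?_⟩
  let ψ : Van (pre L Γ) (e + 1) →ₗ[ℂ] MvPolynomial (Fin 2) ℂ :=
    (S5.pull L2).toLinearMap ∘ₗ (Van (pre L Γ) (e + 1)).subtype
  have hψ : Function.Injective ψ := by
    rw [← LinearMap.ker_eq_bot, LinearMap.ker_eq_bot']
    rintro ⟨f, hf⟩ hf0
    have hf0' : S5.pull L2 f = 0 := hf0
    obtain ⟨a, ha, hfa⟩ := hdiv e f hf.1 hf0'
    have ha0 : a = 0 := by
      refine h1 e le_rfl a ⟨ha, fun w hw => ?_⟩
      have h3 := hf.2 w hw
      rw [hfa, map_mul] at h3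
      exact (mul_eq_zero.mp h3).resolve_left (hl'ne w hw)
    apply Subtype.ext
    show f = 0
    rw [hfa, ha0, mul_zero]
  have hT := hU 2 (L ∘ₗ L2) Λ hinj h0 (e + 1) (LinearMap.range ψ) (by
    rintro t ⟨⟨f, hf⟩, rfl⟩
    exact hlift (e + 1) f hf)
  rw [LinearMap.finrank_range_of_inj hψ, hdim] at hT
  omega

end Pool.Agent.NOD.S4
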