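import Pool.Agent.NOD.S4.HIL

/-!
# Project NOD, section S4, piece PTS
-/

set_option autoImplicit false

namespace Pool.Agent.NOD.S4

open MvPolynomial Module

theorem t_PTS (hS : S_SUR) (hp : S5.S_PUL) : S_PTS := by
  classical
  intro k L Γ hL hΓ i
  have hev : ∀ (f : A) v, eval v (S5.pull L f) = eval (L v) f := fun f => (hp _ _ L f).1
  have hhom : ∀ (f : A) k, f.IsHomogeneous k → (S5.pull L f).IsHomogeneous k :=
    fun f => (hp _ _ L f).2.1
  choose w hw using fun z : Γ => hΓ z z.2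
  let ε : MvPolynomial (Fin k) ℂ →ₗ[ℂ] (Γ → ℂ) :=
    LinearMap.pi fun z => (aeval (w z)).toLinearMap
  have hε : ∀ (g : MvPolynomial (Fin k) ℂ) (z : Γ), ε g z = eval (w z) g := by
    intro g z
    show aeval (w z) g = _
    rw [aeval_eq_eval]
  have hevG : ∀ (f : A) (z : Γ), evG Γ f z = eval (z : Fin 5 → ℂ) f := by
    intro f z
    show aeval (z : Fin 5 → ℂ) f = _
    rw [aeval_eq_eval]
  have hpull : ∀ f : A, ε (S5.pull L f) = evG Γ f := by
    intro f
    funext z
    rw [hε, hev, hw, hevG]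
  let ε' := ε ∘ₗ (homogeneousSubmodule (Fin k) ℂ i).subtype
  have h1 := LinearMap.finrank_range_add_finrank_ker ε'
  have h2 : LinearMap.range ε' = (homogeneousSubmodule (Fin 5) ℂ i).map (evG Γ) := by
    ext x
    constructor
    · rintro ⟨⟨g, hg⟩, rfl⟩
      obtain ⟨f, hf, hfg⟩ := hS k 5 L hL i g hg
      refine ⟨f, hf, ?_⟩
      rw [← hpull, hfg]
      rfl
    · rintro ⟨f, hf, rfl⟩
      exact ⟨⟨S5.pull L f, hhom f i hf⟩, hpull f⟩
  have h3 : (LinearMap.ker ε').map (homogeneousSubmodule (Fin k) ℂ i).subtype =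
      Van (pre L Γ) i := by
    ext g
    rw [Submodule.mem_map]
    constructor
    · rintro ⟨⟨g', hg'⟩, h0, rfl⟩
      refine ⟨hg', fun v hv => ?_⟩
      have h0' : ε g' = 0 := h0
      have h4 := congrFun h0' ⟨L v, hv⟩
      rw [hε] at h4
      have h5 : w ⟨L v, hv⟩ = v := hL (hw _)
      rw [h5] at h4
      exact h4
    · intro hg
      refine ⟨⟨g, hg.1⟩, ?_, rfl⟩
      rw [LinearMap.mem_ker]
      funext z
      show ε g z = 0
      rw [hε]
      refine hg.2 _ ?_
      show L (w z) ∈ Γ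
      rw [hw]
      exact z.2
  have h4 : finrank ℂ (LinearMap.ker ε') = finrank ℂ (Van (pre L Γ) i) := by
    rw [← h3, Submodule.finrank_map_subtype_eq]
  rw [h2, h4] at h1
  show _ + finrank ℂ ((homogeneousSubmodule (Fin 5) ℂ i).map (evG Γ)) = _
  omega

end Pool.Agent.NOD.S4
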