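import Pool.Agent.NOD.S4

/-! Project NOD, section S4, piece QDM. -/

set_option autoImplicit false

namespace Pool.Agent.NOD.S4

open MvPolynomial Module

theorem t_QDM (h1 : S_PTS) (h2 : S_DIM) (h3 : S_HIL) : S_QDM := by
  intro e L Γ l Λ he hL hF hcov hcard hsym hlow hmid
  obtain ⟨hstep, h0, htop⟩ := h3 Γ l (2 * e) Λ hF
  set s : ℕ → ℕ := fun i => ∑ j ∈ Finset.range (i + 1), H Λ j with hs
  have hs0 : s 0 = H Λ 0 := by
    show ∑ j ∈ Finset.range (0 + 1), H Λ j = _
    rw [zero_add, Finset.sum_range_one]
  have hsS : ∀ i, s (i + 1) = s i + H Λ (i + 1) := fun i => Finset.sum_range_succ _ _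
  have hA : ∀ i, i < e → s i = (i + 1) ^ 2 := by
    intro i
    induction i with
    | zero =>
      intro h
      rw [hs0, hlow 0 h]
      rfl
    | succ i ih =>
      intro h
      rw [hsS, ih (by omega), hlow (i + 1) h]
      ring
  have he1 : e - 1 + 1 = e := by omega
  have hE : s e = e ^ 2 + 2 * e := by
    have h4 := hsS (e - 1)
    rw [he1] at h4
    rw [h4, hA (e - 1) (by omega), he1, hmid]
  have hB : ∀ j, j ≤ e → s (e + j) + (e - j) ^ 2 = 2 * e * (e + 1) := by
    intro j
    induction j with
    | zero =>
      intro _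
      rw [add_zero, hE, Nat.sub_zero]
      ring
    | succ j ih =>
      intro h
      have h4 := ih (by omega)
      have h5 : e + (j + 1) = e + j + 1 := by ring
      have h6 : H Λ (e + j + 1) = 2 * (e - (j + 1)) + 1 := by
        rw [hsym (e + j + 1) (by omega)]
        have h7 : 2 * e - (e + j + 1) = e - (j + 1) := by omega
        rw [h7]
        exact hlow _ (by omega)
      rw [h5, hsS, h6]
      obtain ⟨t, ht⟩ : ∃ t, e - (j + 1) = t := ⟨_, rfl⟩
      have ht' : e - j = t + 1 := by omega
      rw [ht'] at h4
      rw [ht]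
      rw [← h4]
      ring
  have hle : ∀ k i, i ≤ k → HG Γ i + s k ≤ HG Γ k + s i := by
    intro k
    induction k with
    | zero =>
      intro i hi
      have : i = 0 := by omega
      rw [this]
    | succ k ih =>
      intro i hi
      rcases Nat.lt_or_ge i (k + 1) with h | h
      · have h4 := ih i (by omega)
        have h5 := hstep k
        rw [hsS]
        omega
      · have : i = k + 1 := by omega
        rw [this]
  have hs2e : s (2 * e) = 2 * e * (e + 1) := by
    have h4 := hB e le_rfl
    rw [Nat.sub_self, ← two_mul] at h4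
    simpa using h4
  have hge : ∀ i, s i ≤ HG Γ i := by
    intro i
    induction i with
    | zero => rw [hs0]; exact h0
    | succ i ih =>
      have h5 := hstep i
      rw [hsS]
      omega
  have hHG : ∀ i, i ≤ 2 * e → HG Γ i = s i := by
    intro i hi
    have h4 := hle (2 * e) i hi
    have h5 := htop (2 * e)
    have h6 := hge i
    omega
  have hP := h1 4 L Γ hL hcov
  have hD := h2 3
  refine ⟨?_, ?_, ?_⟩
  · intro i hi
    have h4 := hP i
    rw [hHG i (by omega), hA i hi, hD i] at h4
    exact h4
  · have h4 := hP e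
    rw [hHG e (by omega), hE, hD e] at h4
    have h5 : (e + 1) ^ 2 = e ^ 2 + 2 * e + 1 := by ring
    omega
  · have h4 := hP (e + 1)
    have h6 : s (e + 1) + 1 = e ^ 2 + 4 * e := by
      have h7 : H Λ (e + 1) = 2 * (e - 1) + 1 := by
        rw [hsym (e + 1) (by omega)]
        have h8 : 2 * e - (e + 1) = e - 1 := by omega
        rw [h8]
        exact hlow _ (by omega)
      rw [hsS, hE, h7]
      omega
    rw [hHG (e + 1) (by omega), hD (e + 1)] at h4
    have h9 : e + 1 + 3 = e + 4 := by ring
    rw [h9] at h4
    omega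

end Pool.Agent.NOD.S4
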