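import Pool.Agent.NOD.S4

/-!
# Piece QUD: the forms of degree `e + 1`
-/

set_option autoImplicit false

namespace Pool.Agent.NOD.S4

open MvPolynomial Module

noncomputable section

namespace QUDX

theorem fin_hom (hd : S_DIM) (k i : ℕ) : Module.Finite ℂ (homogeneousSubmodule (Fin (k + 1)) ℂ i) := by
  apply Module.finite_of_finrank_pos
  rw [hd]
  exact Nat.choose_pos (by omega)

/-- multiplication by two forms -/
def mm (q e₁ : MvPolynomial (Fin 4) ℂ) (i j : ℕ) :
    (homogeneousSubmodule (Fin 4) ℂ i) × (homogeneousSubmodule (Fin 4) ℂ j) →ₗ[ℂ]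
      MvPolynomial (Fin 4) ℂ :=
  LinearMap.coprod ((LinearMap.mulLeft ℂ q).comp (Submodule.subtype _))
    ((LinearMap.mulLeft ℂ e₁).comp (Submodule.subtype _))

theorem mm_apply (q e₁ : MvPolynomial (Fin 4) ℂ) (i j : ℕ)
    (x : (homogeneousSubmodule (Fin 4) ℂ i) × (homogeneousSubmodule (Fin 4) ℂ j)) :
    mm q e₁ i j x = q * x.1 + e₁ * x.2 := rfl

theorem zero_of_dvd {k : ℕ} (q b : MvPolynomial (Fin k) ℂ) (hq : q.IsHomogeneous 2) (hq0 : q ≠ 0)
    (hb : b.IsHomogeneous 1) (h : q ∣ b) : b = 0 := by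
  by_contra hb0
  obtain ⟨c, hc⟩ := h
  have hc0 : c ≠ 0 := by
    rintro rfl
    rw [mul_zero] at hc
    exact hb0 hc
  have h1 : (q * c).totalDegree = q.totalDegree + c.totalDegree :=
    totalDegree_mul_of_isDomain hq0 hc0
  rw [← hc, hb.totalDegree hb0, hq.totalDegree hq0] at h1
  omega

/-- a subspace of codimension one -/
theorem codim_one {V : Type*} [AddCommGroup V] [Module ℂ V] (U W : Submodule ℂ V) (hUW : U ≤ W)
    (h : finrank ℂ W = finrank ℂ U + 1) :
    ∃ f ∈ W, f ∉ U ∧ ∀ g ∈ W, ∃ u ∈ U, ∃ t : ℂ, g = u + t • f := by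
  have : Module.Finite ℂ W := Module.finite_of_finrank_pos (by omega)
  have hne : U ≠ W := by
    rintro rfl
    omega
  obtain ⟨f, hfW, hfU⟩ := SetLike.exists_of_lt (lt_of_le_of_ne hUW hne)
  refine ⟨f, hfW, hfU, ?_⟩
  have hle : U ⊔ Submodule.span ℂ {f} ≤ W :=
    sup_le hUW (by rw [Submodule.span_singleton_le_iff_mem]; exact hfW)
  have : Module.Finite ℂ (U ⊔ Submodule.span ℂ {f} : Submodule ℂ V) :=
    Submodule.finiteDimensional_of_le hle
  have hlt : U < U ⊔ Submodule.span ℂ {f} := by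
    refine lt_of_le_of_ne le_sup_left ?_
    intro h1
    apply hfU
    rw [h1]
    exact Submodule.mem_sup_right (Submodule.mem_span_singleton_self f)
  have h1 := Submodule.finrank_lt_finrank_of_lt hlt
  have h2 : U ⊔ Submodule.span ℂ {f} = W :=
    Submodule.eq_of_le_of_finrank_le hle (by omega)
  intro g hg
  rw [← h2, Submodule.mem_sup] at hg
  obtain ⟨u, hu, v, hv, huv⟩ := hg
  rw [Submodule.mem_span_singleton] at hv
  obtain ⟨t, rfl⟩ := hv
  exact ⟨u, hu, t, huv.symm⟩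

theorem choose_id (m : ℕ) : (m + 4).choose 3 = (m + 2).choose 3 + (m ^ 2 + 4 * m) + 4 := by
  have h1 : (m + 4).choose 3 = (m + 3).choose 2 + (m + 3).choose 3 := Nat.choose_succ_succ _ _
  have h2 : (m + 3).choose 3 = (m + 2).choose 2 + (m + 2).choose 3 := Nat.choose_succ_succ _ _
  have h3 : (m + 3).choose 2 = (m + 2).choose 1 + (m + 2).choose 2 := Nat.choose_succ_succ _ _
  have h4 : (m + 2).choose 1 = m + 2 := Nat.choose_one_right _
  have h5 : (m + 2).choose 2 * 2 = (m + 2) * (m + 1) := by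
    rw [Nat.choose_two_right]
    have : (m + 2) * (m + 2 - 1) = (m + 2) * (m + 1) := by congr 1
    rw [this]
    exact Nat.div_mul_cancel (by
      rw [mul_comm]
      exact (Nat.even_mul_succ_self (m + 1)).two_dvd)
  nlinarith

end QUDX

open QUDX in
theorem t_QUD (hd : S_DIM) : S_QUD := by
  intro e G q e₁ he hdim hq hq0 he1 he10 hcop
  have : Module.Finite ℂ (homogeneousSubmodule (Fin 4) ℂ (e - 1)) := fin_hom hd 3 (e - 1)
  have : Module.Finite ℂ (homogeneousSubmodule (Fin 4) ℂ 1) := fin_hom hd 3 1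
  have hinj : Function.Injective (mm q e₁ (e - 1) 1) := by
    rw [← LinearMap.ker_eq_bot, LinearMap.ker_eq_bot']
    intro x hx
    rw [mm_apply] at hx
    have hrel : IsRelPrime q e₁ := fun d h1 h2 => hcop d h1 h2
    have hdvd : q ∣ e₁ * x.2 := ⟨-x.1, by linear_combination hx⟩
    have h1 : q ∣ (x.2 : MvPolynomial (Fin 4) ℂ) := hrel.dvd_of_dvd_mul_left hdvd
    have h2 : (x.2 : MvPolynomial (Fin 4) ℂ) = 0 := zero_of_dvd q _ hq.1 hq0 x.2.2 h1
    rw [h2, mul_zero, add_zero] at hx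
    have h3 : (x.1 : MvPolynomial (Fin 4) ℂ) = 0 := (mul_eq_zero.1 hx).resolve_left hq0
    exact Prod.ext (Subtype.ext h3) (Subtype.ext h2)
  have hr : finrank ℂ (LinearMap.range (mm q e₁ (e - 1) 1)) = (e + 2).choose 3 + 4 := by
    rw [LinearMap.finrank_range_of_inj hinj, Module.finrank_prod, hd 3, hd 3,
      show e - 1 + 3 = e + 2 by omega]
    rfl
  have hle : LinearMap.range (mm q e₁ (e - 1) 1) ≤ Van G (e + 1) := by
    rintro _ ⟨x, rfl⟩
    rw [mm_apply]
    refine ⟨?_, ?_⟩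
    · have h1 := hq.1.mul x.1.2
      have h2 := he1.1.mul x.2.2
      rw [show 2 + (e - 1) = e + 1 by omega] at h1
      exact h1.add h2
    · intro w hw
      rw [map_add, map_mul, map_mul, hq.2 w hw, he1.2 w hw]
      ring
  have hfr : finrank ℂ (Van G (e + 1)) = finrank ℂ (LinearMap.range (mm q e₁ (e - 1) 1)) + 1 := by
    rw [hr]
    have := choose_id e
    omega
  obtain ⟨f, hf, _, hall⟩ := codim_one _ _ hle hfr
  refine ⟨f, hf, fun g hg => ?_⟩
  obtain ⟨u, ⟨x, rfl⟩, t, hgt⟩ := hall g hg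
  refine ⟨x.1, x.2, t, x.1.2, x.2.2, ?_⟩
  rw [hgt, mm_apply, smul_eq_C_mul]

end

end Pool.Agent.NOD.S4
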