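import Pool.Agent.NOD.S4

/-!
# Piece QUF: a factor of degree two
-/

set_option autoImplicit false

namespace Pool.Agent.NOD.S4

open MvPolynomial Module

noncomputable section

namespace QUFX

/-- a cofactor of a form of degree two in a form of degree two is a constant -/
theorem const_of {k : ℕ} (q a g : MvPolynomial (Fin k) ℂ) (hq : q.IsHomogeneous 2) (hq0 : q ≠ 0)
    (hg : g.IsHomogeneous 2) (h : g = q * a) : ∃ s : ℂ, a = C s := by
  by_cases ha : a = 0
  · exact ⟨0, by rw [ha, C_0]⟩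
  · have hg0 : g ≠ 0 := by rw [h]; exact mul_ne_zero hq0 ha
    have h1 : (q * a).totalDegree = q.totalDegree + a.totalDegree :=
      totalDegree_mul_of_isDomain hq0 ha
    rw [← h, hg.totalDegree hg0, hq.totalDegree hq0] at h1
    have h2 : a.totalDegree = 0 := by omega
    exact ⟨_, (totalDegree_eq_zero_iff_eq_C.1 h2)⟩

theorem dvd_of_C {k : ℕ} (q g : MvPolynomial (Fin k) ℂ) (c : ℂ) (hc : c ≠ 0) (h : q ∣ C c * g) :
    q ∣ g := by
  have h1 : g = C c⁻¹ * (C c * g) := by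
    rw [← mul_assoc, ← C_mul, inv_mul_cancel₀ hc, C_1, one_mul]
  rw [h1]
  exact Dvd.dvd.mul_left h _

/-- a binary quadratic form has a nonzero linear factor -/
theorem binary {k : ℕ} (q e : MvPolynomial (Fin k) ℂ) (hq : q.IsHomogeneous 2)
    (he : e.IsHomogeneous 2) (hq0 : q ≠ 0) (hqe : ¬ q ∣ e) (s u t : ℂ) :
    ∃ q₁ : MvPolynomial (Fin k) ℂ, q₁.IsHomogeneous 2 ∧ q₁ ≠ 0 ∧
      q₁ ∣ C s * q ^ 2 + C u * (q * e) + C t * e ^ 2 := by
  by_cases hs : s = 0
  · refine ⟨e, he, ?_, ?_⟩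
    · rintro rfl
      exact hqe (dvd_zero _)
    · rw [hs, C_0, zero_mul, zero_add]
      exact ⟨C u * q + C t * e, by ring⟩
  · obtain ⟨d, hd⟩ := IsAlgClosed.exists_pow_nat_eq (u ^ 2 - 4 * s * t) (two_pos)
    set r : ℂ := (-u + d) / (2 * s) with hr
    have hroot : s * r ^ 2 + u * r + t = 0 := by
      rw [hr]
      field_simp
      linear_combination hd
    refine ⟨q - C r * e, ?_, ?_, ?_⟩
    · have h1 : (C r * e).IsHomogeneous (0 + 2) := (isHomogeneous_C _ _).mul he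
      rw [zero_add] at h1
      exact hq.sub h1
    · intro h0
      have h1 : q = C r * e := by linear_combination h0
      have hr0 : r ≠ 0 := by
        intro h
        rw [h, C_0, zero_mul] at h1
        exact hq0 h1
      apply hqe
      refine ⟨C r⁻¹, ?_⟩
      rw [h1, mul_comm (C r) e, mul_assoc, ← C_mul, mul_inv_cancel₀ hr0, C_1, mul_one]
    · refine ⟨C s * q + C (u + s * r) * e, ?_⟩
      have h2 : (C t : MvPolynomial (Fin k) ℂ) = -(C s * C r ^ 2 + C u * C r) := by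
        rw [← C_pow, ← C_mul, ← C_mul, ← C_add, ← C_neg]
        congr 1
        linear_combination hroot
      rw [h2, C_add, C_mul]
      ring

end QUFX

open QUFX in
theorem t_QUF (hg : S_GRD) (he : S_EUL) (_hp : S5.S_PUL) : S_QUF := by
  intro e L F zs Γ q e₁ f he2 hF hS hΓ hL h1 hq hq0 he1 hqe hlow htop hf hdec
  obtain ⟨hpd, p, hpv, hpe⟩ := he 4 (e + 1) L F zs Γ hF hS hΓ
  choose a b t ha hb hab using fun l => hdec (p l) (hpv l)
  choose a' b' t' ha' hb' hab' using fun i => hdec _ (hpd i)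
  set α0 : MvPolynomial (Fin 4) ℂ := ∑ l, X l * a l with hα0
  set α1 : MvPolynomial (Fin 4) ℂ := ∑ l, X l * b l with hα1
  set α2 : MvPolynomial (Fin 4) ℂ := ∑ l, X l * C (t l) with hα2
  have hsum : C ((e + 1 + 1 : ℕ) : ℂ) * S5.pull L F = α0 * q + α1 * e₁ + α2 * f := by
    rw [hpe, hα0, hα1, hα2, Finset.sum_mul, Finset.sum_mul, Finset.sum_mul,
      ← Finset.sum_add_distrib, ← Finset.sum_add_distrib]
    refine Finset.sum_congr rfl fun l _ => ?_
    rw [hab l]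
    ring
  have hdeg0 : α0.IsHomogeneous e := by
    rw [hα0]
    refine IsHomogeneous.sum _ _ _ fun l _ => ?_
    have := (isHomogeneous_X ℂ l).mul (ha l)
    rwa [show 1 + (e - 1) = e by omega] at this
  have hdeg1 : α1.IsHomogeneous 2 := by
    rw [hα1]
    exact IsHomogeneous.sum _ _ _ fun l _ => (isHomogeneous_X ℂ l).mul (hb l)
  have hdeg2 : α2.IsHomogeneous 1 := by
    rw [hα2]
    exact IsHomogeneous.sum _ _ _ fun l _ => (isHomogeneous_X ℂ l).mul (isHomogeneous_C _ _)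
  have ht0 : ((e + 1 + 1 : ℕ) : ℂ) ≠ 0 := Nat.cast_ne_zero.2 (by omega)
  have hvan : ∀ w ∈ pre L Γ, ∀ t : Fin 3, eval w (![α0, α1, α2] t) = 0 := by
    intro w hw
    have hw' : L w ∈ Γ := hw
    refine hg 3 L F zs w ![q, e₁, f] ![α0, α1, α2] ((e + 1 + 1 : ℕ) : ℂ) hL hS (hΓ hw') ?_ ht0 ?_ ?_
    · intro j
      fin_cases j
      · exact hq.2 w hw
      · exact he1.2 w hw
      · exact hf.2 w hw
    · intro i
      refine ⟨![a' i, b' i, C (t' i)], ?_⟩
      rw [hab' i, Fin.sum_univ_three]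
      simp only [Matrix.cons_val_zero, Matrix.cons_val_one, Matrix.cons_val]
      ring
    · rw [hsum, Fin.sum_univ_three]
      simp only [Matrix.cons_val_zero, Matrix.cons_val_one, Matrix.cons_val]
  have hz2 : α2 = 0 := h1 α2 ⟨hdeg2, fun w hw => hvan w hw 2⟩
  have hv1 : α1 ∈ Van (pre L Γ) 2 := ⟨hdeg1, fun w hw => hvan w hw 1⟩
  have hv0 : α0 ∈ Van (pre L Γ) e := ⟨hdeg0, fun w hw => hvan w hw 0⟩
  rw [hz2, zero_mul, add_zero] at hsum
  rcases Nat.lt_or_ge 2 e with h3 | h3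
  · obtain ⟨s, hs⟩ := hlow 2 h3 α1 hv1
    refine ⟨q, hq.1, hq0, dvd_of_C _ _ _ ht0 ?_⟩
    rw [hsum, hs]
    exact ⟨α0 + s * e₁, by ring⟩
  · have hee : e = 2 := by omega
    subst hee
    obtain ⟨a0, t0, h0⟩ := htop α0 hv0
    obtain ⟨a1, t1, h1'⟩ := htop α1 hv1
    have hC : ∀ t : ℂ, (C t * e₁).IsHomogeneous 2 := by
      intro t
      have h1 : (C t * e₁).IsHomogeneous (0 + 2) := (isHomogeneous_C _ _).mul he1.1
      rwa [zero_add] at h1
    obtain ⟨s0, hs0⟩ := const_of q a0 (α0 - C t0 * e₁) hq.1 hq0 (hdeg0.sub (hC _)) (by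
      rw [h0]; ring)
    obtain ⟨s1, hs1⟩ := const_of q a1 (α1 - C t1 * e₁) hq.1 hq0 (hdeg1.sub (hC _)) (by
      rw [h1']; ring)
    obtain ⟨q₁, k1, k2, k3⟩ := binary q e₁ hq.1 he1.1 hq0 hqe s0 (t0 + s1) t1
    refine ⟨q₁, k1, k2, dvd_of_C _ _ _ ht0 ?_⟩
    rw [hsum, h0, h1', hs0, hs1]
    convert k3 using 1
    rw [C_add]
    ring

end

end Pool.Agent.NOD.S4
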