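import Pool.Agent.NOD.S4

/-! Project NOD, section S4, piece QUR. -/

set_option autoImplicit false

namespace Pool.Agent.NOD.S4

open MvPolynomial Module

/-- a form of degree one is a linear functional -/
theorem qur_lin {k : ℕ} (f : MvPolynomial (Fin k) ℂ) (hf : f.IsHomogeneous 1) :
    ∃ φ : (Fin k → ℂ) →ₗ[ℂ] ℂ, ∀ v, φ v = eval v f := by
  have h : f ∈ homogeneousSubmodule (Fin k) ℂ 1 := hf
  rw [homogeneousSubmodule_one_eq_span_X, Submodule.mem_span_range_iff_exists_fun] at h
  obtain ⟨c, rfl⟩ := h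
  refine ⟨∑ i, c i • LinearMap.proj i, fun v => ?_⟩
  simp [smul_eval]

theorem t_QUR (h1 : S_HFA) (hp : S5.S_PUL) : S_QUR := by
  intro L F q₁ hL hq hq0 hdvd
  obtain ⟨r, hr⟩ := hdvd
  by_cases hirr : Irreducible q₁
  · right
    refine ⟨L, q₁, hL, hq, hirr, fun v hv => ?_⟩
    rw [← (hp 4 5 L F).1 v, hr, map_mul, hv, zero_mul]
  · left
    have hnu : ¬ IsUnit q₁ := by
      intro hu
      have h2 : q₁.totalDegree = 0 := by
        obtain ⟨c, _, hc⟩ := MvPolynomial.isUnit_iff_eq_C_of_isReduced.1 hu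
        rw [hc]
        exact totalDegree_C _
      rw [hq.totalDegree hq0] at h2
      norm_num at h2
    obtain ⟨p, p', hpp⟩ : ∃ p p' : MvPolynomial (Fin 4) ℂ, q₁ = p * p' ∧ ¬ IsUnit p ∧
        ¬ IsUnit p' := by
      by_contra hcon
      push Not at hcon
      refine hirr ⟨hnu, fun a b hab => ?_⟩
      by_contra h3
      push Not at h3
      exact h3.2 (hcon a b hab h3.1)
    obtain ⟨hpp, hnp, hnp'⟩ := hpp
    obtain ⟨a, b, hab, ha, hb⟩ := h1.1 4 2 q₁ p p' hq hq0 hpp
    have hp0 : p ≠ 0 := by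
      rintro rfl
      exact hq0 (by rw [hpp, zero_mul])
    have hp0' : p' ≠ 0 := by
      rintro rfl
      exact hq0 (by rw [hpp, mul_zero])
    have hunit : ∀ f : MvPolynomial (Fin 4) ℂ, f ≠ 0 → f.IsHomogeneous 0 → IsUnit f := by
      intro f hf0 hf
      have h2 := totalDegree_eq_zero_iff_eq_C.1 (hf.totalDegree hf0)
      rw [h2]
      refine IsUnit.map C (isUnit_iff_ne_zero.2 fun h3 => hf0 ?_)
      rw [h2, h3, map_zero]
    have ha1 : a = 1 := by
      have h2 : a ≠ 0 := by
        rintro rfl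
        exact hnp (hunit p hp0 ha)
      have h3 : b ≠ 0 := by
        rintro rfl
        exact hnp' (hunit p' hp0' hb)
      omega
    subst ha1
    obtain ⟨l, hl⟩ := qur_lin p ha
    have hker : 3 ≤ finrank ℂ (LinearMap.ker l) := by
      have h2 := LinearMap.finrank_range_add_finrank_ker l
      have h3 : finrank ℂ (LinearMap.range l) ≤ 1 :=
        (Submodule.finrank_le _).trans (by rw [finrank_self])
      rw [finrank_fin_fun] at h2
      omega
    obtain ⟨f, hf⟩ := exists_linearIndependent_of_le_finrank hker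
    have hinj : Function.Injective (Fintype.linearCombination ℂ f) :=
      LinearMap.ker_eq_bot.1 (Fintype.linearIndependent_iff'.1 hf)
    refine ⟨L ∘ₗ (LinearMap.ker l).subtype ∘ₗ Fintype.linearCombination ℂ f, ?_, fun v => ?_⟩
    · intro x y hxy
      exact hinj (Subtype.val_injective (hL hxy))
    · show eval (L ((Fintype.linearCombination ℂ f v : LinearMap.ker l) : Fin 4 → ℂ)) F = 0
      rw [← (hp 4 5 L F).1, hr, hpp, map_mul, map_mul, ← hl]
      have h2 := (Fintype.linearCombination ℂ f v).2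
      rw [LinearMap.mem_ker] at h2
      rw [h2, zero_mul, zero_mul]

end Pool.Agent.NOD.S4
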