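import Pool.Agent.NOD.S4

/-!
# Project NOD, section S4, piece QUS: the forms of degree at most `e` which vanish on `G`
-/

set_option autoImplicit false

namespace Pool.Agent.NOD.S4

open MvPolynomial Module

noncomputable section

theorem QUS_choose (j : ℕ) : (j + 5).choose 3 = (j + 3).choose 3 + (j + 3) ^ 2 := by
  have h1 : (j + 5).choose 3 = (j + 4).choose 2 + (j + 4).choose 3 := Nat.choose_succ_succ' (j + 4) 2
  have h2 : (j + 4).choose 3 = (j + 3).choose 2 + (j + 3).choose 3 := Nat.choose_succ_succ' (j + 3) 2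
  have h3 : (j + 4).choose 2 = (j + 3).choose 1 + (j + 3).choose 2 := Nat.choose_succ_succ' (j + 3) 1
  have h4 : (j + 3).choose 2 = (j + 2).choose 1 + (j + 2).choose 2 := Nat.choose_succ_succ' (j + 2) 1
  have h5 : (j + 2).choose 2 * 2 = (j + 2) * (j + 1) := by
    rw [Nat.choose_two_right]
    have := Nat.even_mul_pred_self (j + 2)
    exact Nat.div_mul_cancel this.two_dvd
  rw [Nat.choose_one_right] at h3 h4
  nlinarith

theorem QUS_fin (hD : S_DIM) (i : ℕ) : FiniteDimensional ℂ (homogeneousSubmodule (Fin 4) ℂ i) := by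
  apply Module.finite_of_finrank_pos
  rw [hD 3 i]
  exact Nat.choose_pos (by omega)

theorem QUS_van_le (G : Set (Fin 4 → ℂ)) (i : ℕ) : Van G i ≤ homogeneousSubmodule (Fin 4) ℂ i :=
  fun _ hf => hf.1

theorem QUS_fin' (hD : S_DIM) (G : Set (Fin 4 → ℂ)) (i : ℕ) : FiniteDimensional ℂ (Van G i) := by
  have := QUS_fin hD i
  exact Submodule.finiteDimensional_of_le (QUS_van_le G i)

/-- the multiples of `q` -/
theorem QUS_img (hD : S_DIM) (G : Set (Fin 4 → ℂ)) (q : MvPolynomial (Fin 4) ℂ) (hq : q ∈ Van G 2)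
    (hq0 : q ≠ 0) (j : ℕ) :
    (homogeneousSubmodule (Fin 4) ℂ j).map (LinearMap.mulLeft ℂ q) ≤ Van G (j + 2) ∧
    finrank ℂ ((homogeneousSubmodule (Fin 4) ℂ j).map (LinearMap.mulLeft ℂ q)) = (j + 3).choose 3 := by
  constructor
  · rintro _ ⟨a, ha, rfl⟩
    refine ⟨?_, fun w hw => ?_⟩
    · have := hq.1.mul (show a.IsHomogeneous j from ha)
      rw [add_comm 2 j] at this
      exact this
    · change eval w (q * a) = 0
      rw [map_mul, hq.2 w hw, zero_mul]
  · rw [← hD 3 j]
    have hinj : Function.Injective (LinearMap.mulLeft ℂ q) := fun a b hab => mul_left_cancel₀ hq0 hab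
    exact (Submodule.equivMapOfInjective _ hinj _).symm.finrank_eq

theorem QUS_comp {a : ℕ} {l : MvPolynomial (Fin 4) ℂ} (hl : l.IsHomogeneous a) (k : ℕ)
    (q : MvPolynomial (Fin 4) ℂ) :
    homogeneousComponent (a + k) (l * q) = l * homogeneousComponent k q := by
  conv_lhs => rw [← sum_homogeneousComponent q, Finset.mul_sum, map_sum]
  have h1 : ∀ i, homogeneousComponent (a + k) (l * homogeneousComponent i q) =
      if i = k then l * homogeneousComponent k q else 0 := by
    intro i
    rw [homogeneousComponent_of_mem (hl.mul (homogeneousComponent_isHomogeneous i q))]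
    by_cases h : i = k
    · rw [if_pos (by rw [h]), if_pos h, h]
    · rw [if_neg (by omega), if_neg h]
  simp_rw [h1]
  rw [Finset.sum_ite_eq']
  split_ifs with h
  · rfl
  · rw [Finset.mem_range] at h
    rw [homogeneousComponent_eq_zero _ _ (by omega), mul_zero]

theorem QUS_dvd (q f : MvPolynomial (Fin 4) ℂ) (j : ℕ) (hq : q.IsHomogeneous 2)
    (hf : f.IsHomogeneous (j + 2)) (h : q ∣ f) :
    f ∈ (homogeneousSubmodule (Fin 4) ℂ j).map (LinearMap.mulLeft ℂ q) := by
  obtain ⟨a, rfl⟩ := h
  refine ⟨homogeneousComponent j a, homogeneousComponent_isHomogeneous _ _, ?_⟩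
  change q * homogeneousComponent j a = q * a
  rw [← QUS_comp hq j a, homogeneousComponent_of_mem hf, if_pos (add_comm 2 j)]

theorem t_QUS (hD : S_DIM) : S_QUS := by
  intro e G he hlow htop
  have hfin := QUS_fin' hD G
  obtain ⟨q, hq, hq0⟩ : ∃ q ∈ Van G 2, q ≠ 0 := by
    have h1 : 0 < finrank ℂ (Van G 2) := by
      rcases Nat.lt_or_ge 2 e with h | h
      · have := hlow 2 h
        have h2 : (2 + 3).choose 3 = 10 := by decide
        omega
      · have h3 : e = 2 := by omega
        subst h3
        have h2 : (2 + 3).choose 3 = 10 := by decide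
        omega
    have h2 : Van G 2 ≠ ⊥ := by
      intro h
      rw [h, finrank_bot] at h1
      exact lt_irrefl _ h1
    exact Submodule.exists_mem_ne_zero_of_ne_bot h2
  obtain ⟨j, rfl⟩ : ∃ j, e = j + 2 := ⟨e - 2, by omega⟩
  set I := (homogeneousSubmodule (Fin 4) ℂ j).map (LinearMap.mulLeft ℂ q) with hI
  obtain ⟨hIle, hIfr⟩ := QUS_img hD G q hq hq0 j
  have htop' : finrank ℂ (Van G (j + 2)) = (j + 3).choose 3 + 1 := by
    have h1 := QUS_choose j
    have h2 : j + 2 + 3 = j + 5 := by ring
    have h3 : j + 2 + 1 = j + 3 := by ring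
    rw [h2, h3, h1] at htop
    omega
  obtain ⟨e₁, he₁, he₁I⟩ : ∃ e₁ ∈ Van G (j + 2), e₁ ∉ I := by
    by_contra hcon
    have h1 : Van G (j + 2) = I := le_antisymm
      (fun x hx => by_contra fun hxI => hcon ⟨x, hx, hxI⟩) hIle
    have h2 : finrank ℂ (Van G (j + 2)) = finrank ℂ I := by rw [h1]
    rw [htop', hI, hIfr] at h2
    omega
  refine ⟨q, e₁, hq, hq0, he₁, fun h => he₁I (QUS_dvd q e₁ j hq.1 he₁.1 h), ?_, ?_⟩
  · intro i hi f hf
    rcases Nat.lt_or_ge i 2 with h | h
    · -- `Van G i = 0`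
      have h1 : finrank ℂ (Van G i) = 0 := by
        have := hlow i hi
        interval_cases i
        · simpa using this
        · have h2 : (1 + 3).choose 3 = 4 := by decide
          omega
      have h2 : Van G i = ⊥ := Submodule.finrank_eq_zero.mp h1
      rw [h2, Submodule.mem_bot] at hf
      rw [hf]
      exact dvd_zero _
    · obtain ⟨k, rfl⟩ : ∃ k, i = k + 2 := ⟨i - 2, by omega⟩
      obtain ⟨h1, h2⟩ := QUS_img hD G q hq hq0 k
      have h3 : finrank ℂ (Van G (k + 2)) = (k + 3).choose 3 := by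
        have h4 := hlow (k + 2) hi
        have h5 := QUS_choose k
        have h6 : k + 2 + 3 = k + 5 := by ring
        have h7 : k + 2 + 1 = k + 3 := by ring
        rw [h6, h7, h5] at h4
        omega
      have h4 := Submodule.eq_of_le_of_finrank_eq h1 (by rw [h2, h3])
      rw [← h4] at hf
      obtain ⟨a, _, rfl⟩ := hf
      exact Dvd.intro _ rfl
  · intro f hf
    have h1 : I ⊔ Submodule.span ℂ {e₁} = Van G (j + 2) := by
      apply Submodule.eq_of_le_of_finrank_le
      · refine sup_le hIle ?_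
        rw [Submodule.span_singleton_le_iff_mem]
        exact he₁
      · rw [htop']
        have h2 : I < I ⊔ Submodule.span ℂ {e₁} := by
          refine lt_of_le_of_ne le_sup_left fun h => he₁I ?_
          rw [h]
          exact Submodule.mem_sup_right (Submodule.mem_span_singleton_self _)
        have h3 : FiniteDimensional ℂ (I ⊔ Submodule.span ℂ {e₁} : Submodule ℂ (MvPolynomial (Fin 4) ℂ)) := by
          apply Submodule.finiteDimensional_of_le (S₂ := Van G (j + 2))
          refine sup_le hIle ?_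
          rw [Submodule.span_singleton_le_iff_mem]
          exact he₁
        have h4 := Submodule.finrank_lt_finrank_of_lt h2
        rw [hI, hIfr] at h4
        rw [hI]
        omega
    rw [← h1, Submodule.mem_sup] at hf
    obtain ⟨y, hy, z, hz, rfl⟩ := hf
    obtain ⟨a, _, rfl⟩ := hy
    obtain ⟨t, rfl⟩ := Submodule.mem_span_singleton.mp hz
    refine ⟨a, t, ?_⟩
    rw [← smul_eq_C_mul]
    rfl

end

end Pool.Agent.NOD.S4
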