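import Pool.Agent.NOD.S4.HIL

/-!
# Project NOD, section S4, piece SPR
-/

set_option autoImplicit false

namespace Pool.Agent.NOD.S4

open MvPolynomial Module

theorem t_SPR : S_SPR := by
  classical
  intro Γ l n Λ hF
  have hev : ∀ (f : A) (z : Γ), evG Γ f z = eval (z : Fin 5 → ℂ) f := by
    intro f z
    show aeval (z : Fin 5 → ℂ) f = _
    rw [aeval_eq_eval]
  set S : Submodule ℂ (Fin 5 → ℂ) := Submodule.span ℂ (Γ : Set (Fin 5 → ℂ)) with hS
  -- the rank of the evaluation of the linear forms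
  let τ : Module.Dual ℂ S →ₗ[ℂ] (Γ → ℂ) :=
    LinearMap.pi fun z => LinearMap.applyₗ (⟨(z : Fin 5 → ℂ), Submodule.subset_span z.2⟩ : S)
  have hτ : ∀ (φ : Module.Dual ℂ S) (z : Γ),
      τ φ z = φ ⟨(z : Fin 5 → ℂ), Submodule.subset_span z.2⟩ := fun _ _ => rfl
  have hτi : Function.Injective τ := by
    rw [← LinearMap.ker_eq_bot, LinearMap.ker_eq_bot']
    intro φ h0
    ext ⟨v, hv⟩
    have h1 : ∀ v (hv : v ∈ S), φ ⟨v, hv⟩ = 0 := by
      intro v hv
      refine Submodule.span_induction (p := fun v hv => φ ⟨v, hv⟩ = 0) ?_ ?_ ?_ ?_ hv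
      · intro z hz
        exact congrFun h0 ⟨z, hz⟩
      · exact map_zero φ
      · intro x y hx hy h1 h2
        have := map_add φ ⟨x, hx⟩ ⟨y, hy⟩
        rw [h1, h2, add_zero] at this
        exact this
      · intro c x hx h1
        have := map_smul φ c ⟨x, hx⟩
        rw [h1, smul_zero] at this
        exact this
    exact h1 v hv
  have hrange : LinearMap.range τ = (homogeneousSubmodule (Fin 5) ℂ 1).map (evG Γ) := by
    ext x
    constructor
    · rintro ⟨φ, rfl⟩
      obtain ⟨Φ, hΦ⟩ := LinearMap.exists_extend φ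
      refine ⟨∑ i, C (Φ (Pi.single i 1)) * X i, ?_, ?_⟩
      · show (∑ i, C (Φ (Pi.single i 1)) * X i : A) ∈ homogeneousSubmodule (Fin 5) ℂ 1
        refine Submodule.sum_mem _ fun i _ => ?_
        have := (isHomogeneous_C (Fin 5) (Φ (Pi.single i 1))).mul (isHomogeneous_X ℂ i)
        rwa [zero_add] at this
      · funext z
        rw [hev, hτ, ← hΦ]
        show _ = Φ (z : Fin 5 → ℂ)
        rw [map_sum]
        conv_rhs => rw [LinearMap.pi_apply_eq_sum_univ Φ (z : Fin 5 → ℂ)]
        refine Finset.sum_congr rfl fun i _ => ?_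
        rw [map_mul, eval_C, eval_X, smul_eq_mul, mul_comm]
        congr 2
        funext j
        rw [Pi.single_apply]
        by_cases hij : j = i
        · simp [hij]
        · rw [if_neg hij, if_neg (Ne.symm hij)]
    · rintro ⟨f, hf, rfl⟩
      have h : f ∈ homogeneousSubmodule (Fin 5) ℂ 1 := hf
      rw [homogeneousSubmodule_one_eq_span_X, Submodule.mem_span_range_iff_exists_fun] at h
      obtain ⟨c, rfl⟩ := h
      refine ⟨(∑ i, c i • LinearMap.proj i : (Fin 5 → ℂ) →ₗ[ℂ] ℂ) ∘ₗ S.subtype, ?_⟩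
      funext z
      rw [hτ, hev]
      simp [smul_eval]
  have h1 : finrank ℂ ((homogeneousSubmodule (Fin 5) ℂ 1).map (evG Γ)) = finrank ℂ S := by
    rw [← hrange, LinearMap.finrank_range_of_inj hτi, Subspace.dual_finrank_eq]
  -- the comparison
  let V := homogeneousSubmodule (Fin 5) ℂ 1
  let α := (ctrL Λ) ∘ₗ V.subtype
  let β := (evG Γ) ∘ₗ V.subtype
  have hα : W Λ 1 = LinearMap.range α := by
    rw [LinearMap.range_comp, Submodule.range_subtype]
    rfl
  have hβ : V.map (evG Γ) = LinearMap.range β := by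
    rw [LinearMap.range_comp, Submodule.range_subtype]
  let U : Submodule ℂ (Γ → ℂ) := Submodule.span ℂ {evG Γ l}
  have hU : U ≤ LinearMap.range β := by
    rw [Submodule.span_singleton_le_iff_mem]
    exact ⟨⟨l, hF.hom⟩, rfl⟩
  have hne : evG Γ l ≠ 0 := by
    intro h0
    obtain ⟨z, hz⟩ := hF.nonempty
    have := congrFun h0 ⟨z, hz⟩
    rw [hev] at this
    exact hF.ne z hz this
  have hker : LinearMap.ker α = U.comap β := by
    ext ⟨f, hf⟩
    rw [LinearMap.mem_ker, Submodule.mem_comap, Submodule.mem_span_singleton]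
    constructor
    · intro h0
      obtain ⟨t, ht⟩ := hF.lin f hf h0
      refine ⟨t, ?_⟩
      funext z
      show t * evG Γ l z = evG Γ f z
      rw [hev, hev, ht z z.2]
    · rintro ⟨t, ht⟩
      have h2 : ctrL Λ (f - t • l) = 0 := by
        refine hF.van 1 _ (IsHomogeneous.sub hf ((homogeneousSubmodule (Fin 5) ℂ 1).smul_mem t hF.hom)) ?_
        intro z hz
        have h3 := congrFun ht ⟨z, hz⟩
        have h4 : t * evG Γ l ⟨z, hz⟩ = evG Γ f ⟨z, hz⟩ := h3
        rw [hev, hev] at h4
        rw [map_sub, smul_eval, h4, sub_self]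
      rw [map_sub, map_smul] at h2
      have h5 : ctrL Λ l = 0 := hF.kill
      rw [h5, smul_zero, sub_zero] at h2
      exact h2
  have h2 := LinearMap.finrank_range_add_finrank_ker α
  have h3 := LinearMap.finrank_range_add_finrank_ker β
  have h4 := HIL.comap_finrank β U hU
  rw [hker, h4, ← hα] at h2
  rw [← hβ] at h3
  have h5 : finrank ℂ U = 1 := finrank_span_singleton hne
  rw [h5] at h2
  have h6 : finrank ℂ (V.map (evG Γ)) = finrank ℂ S := h1
  rw [h6] at h3
  show finrank ℂ (W Λ 1) + 1 = _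
  omega

end Pool.Agent.NOD.S4
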