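import Pool.Agent.NOD.MainF
import Pool.Agent.NOD.S5.PUL
import Pool.Agent.NOD.S4.Asm
import Pool.Agent.NOD.S4.BPF
import Pool.Agent.NOD.S4.COP
import Pool.Agent.NOD.S4.DIM
import Pool.Agent.NOD.S4.EUL
import Pool.Agent.NOD.S4.GRD
import Pool.Agent.NOD.S4.HFA
import Pool.Agent.NOD.S4.HIL
import Pool.Agent.NOD.S4.KER
import Pool.Agent.NOD.S4.LEC
import Pool.Agent.NOD.S4.LAM
import Pool.Agent.NOD.S4.LIN0
import Pool.Agent.NOD.S4.MIN
import Pool.Agent.NOD.S4.PAR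
import Pool.Agent.NOD.S4.PLF
import Pool.Agent.NOD.S4.PLV
import Pool.Agent.NOD.S4.PTS
import Pool.Agent.NOD.S4.QDM
import Pool.Agent.NOD.S4.QUD
import Pool.Agent.NOD.S4.QUF
import Pool.Agent.NOD.S4.QUR
import Pool.Agent.NOD.S4.QUS
import Pool.Agent.NOD.S4.SPR

/-!
# Project NOD, section S4: the theorem `S_B` (helper41)
-/

set_option autoImplicit false

namespace Pool.Agent.NOD.S4

theorem s_pul : S5.S_PUL := S5.t_PUL

theorem s_sur : S_SUR := t_SUR s_pul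

theorem s_pts : S_PTS := t_PTS s_sur s_pul

theorem s_B_of (hLEC : S_LEC) : S_B :=
  t_ASM f_lc t_SYM f_B1 t_MIN t_LIN0 t_LAM t_BPF t_HIL t_SPR t_PAR
    (t_PLV (t_KER s_pul) s_sur (t_UPB s_pul) t_DIM s_pul)
    (t_PLF (t_GRD s_pul) (t_EUL s_pul) s_pul) (t_QDM s_pts t_DIM t_HIL) (t_QUS t_DIM)
    (t_COP t_HFA hLEC s_sur f_lc s_pul) (t_QUD t_DIM) (t_QUF (t_GRD s_pul) (t_EUL s_pul) s_pul)
    (t_QUR t_HFA s_pul)

/-- Section S4 is complete. -/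
theorem s_B : S_B := s_B_of (t_LEC s_pul (t_KER s_pul) s_sur (t_UPB s_pul) t_DIM)

end Pool.Agent.NOD.S4
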