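import Pool.Agent.NOD.S4

/-! Project NOD, section S4, piece PAR. -/

set_option autoImplicit false

namespace Pool.Agent.NOD.S4

open MvPolynomial Module

namespace ParAux

/-- a linear form as a linear functional -/
theorem lin_of_hom {r : ℕ} (f : MvPolynomial (Fin r) ℂ) (hf : f.IsHomogeneous 1) :
    ∃ φ : (Fin r → ℂ) →ₗ[ℂ] ℂ, ∀ w, eval w f = φ w := by
  have h : f ∈ homogeneousSubmodule (Fin r) ℂ 1 := (mem_homogeneousSubmodule 1 f).mpr hf
  rw [homogeneousSubmodule_one_eq_span_X] at h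
  clear hf
  induction h using Submodule.span_induction with
  | mem x hx =>
    obtain ⟨i, rfl⟩ := hx
    exact ⟨LinearMap.proj i, fun w => by simp⟩
  | zero => exact ⟨0, fun w => by simp⟩
  | add x y _ _ hx hy =>
    obtain ⟨φ, hφ⟩ := hx
    obtain ⟨ψ, hψ⟩ := hy
    exact ⟨φ + ψ, fun w => by rw [map_add, hφ, hψ, LinearMap.add_apply]⟩
  | smul c x _ hx =>
    obtain ⟨φ, hφ⟩ := hx
    exact ⟨c • φ, fun w => by rw [smul_eval, hφ, LinearMap.smul_apply, smul_eq_mul]⟩

end ParAux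

open ParAux

theorem t_PAR : S_PAR := by
  intro Γ r hr
  set S := Submodule.span ℂ (Γ : Set (Fin 5 → ℂ)) with hS
  let e : S ≃ₗ[ℂ] (Fin r → ℂ) := (finBasisOfFinrankEq ℂ S hr).equivFun
  let L : (Fin r → ℂ) →ₗ[ℂ] (Fin 5 → ℂ) := S.subtype ∘ₗ e.symm.toLinearMap
  have hL : ∀ w, L w = (e.symm w : Fin 5 → ℂ) := fun w => rfl
  have hinj : Function.Injective L := by
    intro a b hab
    rw [hL, hL] at hab
    exact e.symm.injective (Subtype.ext hab)
  have hcov : ∀ z ∈ Γ, ∃ w, L w = z := by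
    intro z hz
    refine ⟨e ⟨z, Submodule.subset_span hz⟩, ?_⟩
    rw [hL, LinearEquiv.symm_apply_apply]
  refine ⟨L, hinj, hcov, ?_⟩
  intro f hf hvan
  obtain ⟨φ, hφ⟩ := lin_of_hom f hf
  have hspan : Submodule.span ℂ {w | L w ∈ Γ} = ⊤ := by
    rw [eq_top_iff]
    intro w _
    have h1 : L w ∈ Submodule.map L (Submodule.span ℂ {w | L w ∈ Γ}) := by
      rw [Submodule.map_span]
      have h2 : (Γ : Set (Fin 5 → ℂ)) ⊆ L '' {w | L w ∈ Γ} := by
        intro z hz
        obtain ⟨v, hv⟩ := hcov z hz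
        exact ⟨v, by show L v ∈ Γ; rw [hv]; exact hz, hv⟩
      refine Submodule.span_mono h2 ?_
      rw [hL]
      exact (e.symm w).2
    obtain ⟨v, hv, hvw⟩ := h1
    rw [← hinj hvw]
    exact hv
  have h0 : φ = 0 := by
    have h1 : Submodule.span ℂ {w | L w ∈ Γ} ≤ LinearMap.ker φ := by
      rw [Submodule.span_le]
      intro w hw
      rw [SetLike.mem_coe, LinearMap.mem_ker, ← hφ]
      exact hvan w hw
    rw [hspan] at h1
    exact LinearMap.ker_eq_top.mp (top_le_iff.mp h1)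
  refine MvPolynomial.funext fun w => ?_
  rw [hφ, h0, map_zero, LinearMap.zero_apply]

end Pool.Agent.NOD.S4
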